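import Pool.Agent.Run7.h127.SN.Shrink
import Pool.Agent.Run7.h127.SD.Single

/-!
# The dimension is optimal
-/

set_option autoImplicit false
set_option linter.unusedSectionVars false

namespace Pool.Agent.Run7.h127.SN

open Finset
open scoped Pointwise

/-- boxes of dimension `d` are not covered by few cosets of subgroups of smaller rank -/
theorem optimal (d : ℕ) (C : ℝ) :
    ∃ A : Finset (Fin d → ℤ), A.Nonempty ∧ ((A + A).card : ℝ) ≤ 2 ^ d * A.card ∧
      ∀ (d' : ℕ) (ψ : (Fin d' → ℤ) →+ (Fin d → ℤ)) (T : Finset (Fin d → ℤ)), (T.card : ℝ) ≤ C →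
        (∀ a ∈ A, ∃ t ∈ T, ∃ c : Fin d' → ℤ, a = t + ψ c) → d ≤ d' := by
  classical
  obtain ⟨A, h1, h2, h3⟩ := SD.sharp 1 d (max C 1)
  have e1 : (A.image fun a => 1 • a) = A := by simp
  rw [e1] at h2
  have e2 : ((1 : ℕ) + 1 : ℝ) = 2 := by norm_num
  rw [e2] at h2 h3
  refine ⟨A, h1, h2, ?_⟩
  intro d' ψ T hT hcov
  rcases Nat.eq_zero_or_pos d with hd | hd
  · omega
  choose! τ hτ hτ' using hcov
  obtain ⟨z, hz, hzc⟩ := exists_class h1 hτ
  obtain ⟨A', hA'⟩ : ∃ A', A' = A.filter fun x => τ x = z := ⟨_, rfl⟩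
  rw [← hA'] at hzc
  have hA'A : A' ⊆ A := by rw [hA']; exact filter_subset _ _
  have h4 : C ≤ ((2 : ℝ) ^ d) ^ (max C 1) := by
    have h5 : (1 : ℝ) ≤ max C 1 := le_max_right _ _
    have h6 := one_add_mul_self_le_rpow_one_add (s := 1) (by norm_num) h5
    have h7 : ((1 : ℝ) + 1) ^ (max C 1) ≤ ((2 : ℝ) ^ d) ^ (max C 1) := by
      refine Real.rpow_le_rpow (by norm_num) ?_ (by positivity)
      have h8 : (2 : ℝ) ^ 1 ≤ 2 ^ d := pow_le_pow_right₀ (by norm_num) hd
      linarith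
    have h9 : C ≤ max C 1 := le_max_left _ _
    linarith
  have h5 := h3 A' hA'A (by
    calc (A.card : ℝ) ≤ T.card * A'.card := by exact_mod_cast hzc
      _ ≤ ((2 : ℝ) ^ d) ^ (max C 1) * A'.card :=
        mul_le_mul_of_nonneg_right (hT.trans h4) (by positivity))
  refine h5.trans ?_
  have h6 : Submodule.span ℤ ((A' : Set (Fin d → ℤ)) - (A' : Set (Fin d → ℤ))) ≤
      LinearMap.range ψ.toIntLinearMap := by
    rw [Submodule.span_le]
    rintro _ ⟨a, ha, b, hb, rfl⟩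
    have key : ∀ a ∈ A', ∃ c, a = z + ψ c := by
      intro a ha
      rw [hA', mem_filter] at ha
      obtain ⟨c, hc⟩ := hτ' a ha.1
      rw [ha.2] at hc
      exact ⟨c, hc⟩
    obtain ⟨c, hc⟩ := key a (mem_coe.1 ha)
    obtain ⟨c', hc'⟩ := key b (mem_coe.1 hb)
    refine ⟨c - c', ?_⟩
    show ψ (c - c') = a - b
    rw [hc, hc', map_sub]
    abel
  refine (Submodule.finrank_mono h6).trans ?_
  refine (LinearMap.finrank_range_le _).trans ?_
  rw [Module.finrank_fin_fun]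

end Pool.Agent.Run7.h127.SN
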