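import Pool.Agent.Run7.h127.SN.Lift

/-!
# Freiman–Ruzsa with sharp dimension and almost polynomial bounds
-/

set_option autoImplicit false
set_option linter.unusedSectionVars false

namespace Pool.Agent.Run7.h127.SN

open H112 Finset
open scoped Pointwise

/-- the exponent -/
noncomputable def ex (K ε : ℝ) : ℝ := 10 ^ 20 * (1 + Real.log (1 + Real.log (2 * K))) ^ 2 / ε ^ 4

/-- a class that carries a fraction of a set -/
lemma exists_class {α β : Type*} [DecidableEq β] {X : Finset α} (hX : X.Nonempty) {T : Finset β}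
    {τ : α → β} (hτ : ∀ x ∈ X, τ x ∈ T) :
    ∃ z ∈ T, X.card ≤ T.card * (X.filter fun x => τ x = z).card := by
  have hT : T.Nonempty := by
    obtain ⟨x, hx⟩ := hX
    exact ⟨_, hτ x hx⟩
  obtain ⟨z, hz, hmax⟩ := T.exists_max_image (fun z => (X.filter fun x => τ x = z).card) hT
  refine ⟨z, hz, ?_⟩
  rw [card_eq_sum_card_fiberwise (f := τ) (t := T) fun x hx => mem_coe.2 (hτ x hx)]
  rw [← smul_eq_mul, ← sum_const]
  exact sum_le_sum fun w hw => hmax w hw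

variable {Γ : Type*} [AddCommGroup Γ] [DecidableEq Γ]

/-- **The class.** With `q = 2 ^ k`, a large part of `A` lies in a cell of a convex coset
progression proper at scale `2 (q + 1)`, and has few sums with its dilate. -/
theorem exists_cell (hΓ : ∀ a b : Γ, 2 • a = 2 • b → a = b) {A : Finset Γ}
    (hA : A.Nonempty) {K : ℝ} (hK : ((A + A).card : ℝ) ≤ K * A.card) (hK1 : 1 ≤ K) (k : ℕ) :
    ∃ (D : ℕ) (d : ℕ) (N : Seminorm ℝ (Fin d → ℝ)) (ψ : (Fin d → ℤ) →+ Γ) (H : AddSubgroup Γ)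
      (z : Γ) (A₁ : Finset Γ) (g : Γ → (Fin d → ℤ)),
      (D : ℝ) ≤ 300 * Real.log (2 * K) ∧ (∀ x, N x = 0 → x = 0) ∧ Finite H ∧
      (LL N 3).ncard * Nat.card H ≤ (4 * D + 1) ^ (D * (k + 3 + Nat.log 2 (D + 1))) * A.card ∧
      A₁ ⊆ A ∧ A₁.Nonempty ∧
      (A.card : ℝ) ≤ K * (2 * K) ^ (13000 * (1 + Real.log (1 + Real.log (2 * K)))) * A₁.card ∧
      ((A₁ + A₁.image fun a => 2 ^ k • a).card : ℝ) ≤
        K ^ (k + 1) * (2 * K) ^ (13000 * (1 + Real.log (1 + Real.log (2 * K)))) * A₁.card ∧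
      IsAddFreimanHom (2 ^ k + 1) (A₁ : Set Γ) Set.univ g ∧
      ∀ a ∈ A₁, g a ∈ LL N 1 ∧ a - z - ψ (g a) ∈ H := by
  classical
  obtain ⟨D, B, ψ₀, H₀, T, hD, hB, hH₀, hvol, hT, hcov⟩ := near_pfr hA hK
  obtain ⟨N₀, hN₀, hNB⟩ := exists_norm hB
  obtain ⟨t, ht⟩ : ∃ t : ℝ, t = 2 * (2 ^ k + 1) := ⟨_, rfl⟩
  have ht0 : 0 ≤ t := by rw [ht]; positivity
  obtain ⟨d, N, ψ, H, hd, hN, hH, hp, hc, hn⟩ := proper ht0 D N₀ hN₀ ψ₀ H₀ hH₀
  have hcovA : ∀ a ∈ A, ∃ z ∈ T, ∃ c ∈ LL N 1, ∃ h ∈ H, a = z + ψ c + h := by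
    intro a ha
    obtain ⟨z, hz, c, hcB, h, hh, e⟩ := hcov a ha
    obtain ⟨c', hc', h', hh', e'⟩ := hc 1 zero_le_one c ((hNB _).2 hcB) h hh
    refine ⟨z, hz, c', hc', h', hh', ?_⟩
    rw [e, add_assoc, e', ← add_assoc]
  obtain ⟨X, hXA, hX0, hX1, hXk⟩ := SD.exists_dil hΓ hA hK
  choose! τ hτT hτ using hcovA
  obtain ⟨z, hz, hzX⟩ := exists_class hX0 (T := T) (τ := τ) fun x hx => hτT x (hXA hx)
  obtain ⟨A₁, hA₁⟩ : ∃ A₁, A₁ = X.filter fun x => τ x = z := ⟨_, rfl⟩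
  rw [← hA₁] at hzX
  have hA₁X : A₁ ⊆ X := by rw [hA₁]; exact filter_subset _ _
  have hA₁0 : A₁.Nonempty := by
    rw [nonempty_iff_ne_empty]
    intro h0
    rw [h0, card_empty, mul_zero] at hzX
    have := card_pos.2 hX0
    omega
  obtain ⟨Q, hQ⟩ : ∃ Q : ℝ, Q = (2 * K) ^ (13000 * (1 + Real.log (1 + Real.log (2 * K)))) :=
    ⟨_, rfl⟩
  rw [← hQ] at hT ⊢
  have hQ0 : 0 ≤ Q := by rw [hQ]; positivity
  have hzX' : (X.card : ℝ) ≤ Q * A₁.card := by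
    calc (X.card : ℝ) ≤ T.card * A₁.card := by exact_mod_cast hzX
      _ ≤ Q * A₁.card := mul_le_mul_of_nonneg_right hT (by positivity)
  obtain ⟨g, hg1, hg2⟩ := lift (N := N) (ψ := ψ) (H := H) (n := 2 ^ k + 1) (S := (A₁ : Set Γ))
    (z := z) (by
      intro c hc0 hct
      refine hp c hc0 ?_
      rw [ht]
      push_cast at hct
      exact hct) (by
      intro a ha
      have h1 : a ∈ X ∧ τ a = z := by
        rw [mem_coe, hA₁, mem_filter] at ha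
        exact ha
      have h2 := hτ a (hXA h1.1)
      rw [h1.2] at h2
      exact h2)
  refine ⟨D, d, N, ψ, H, z, A₁, g, hD, hN, hH, ?_, hA₁X.trans hXA, hA₁0, ?_, ?_, hg1,
    fun a ha => hg2 a (mem_coe.2 ha)⟩
  · have h1 := hn 3 (by norm_num)
    have h2 : (3 : ℝ) + D * t ≤ 2 ^ (k + 3 + Nat.log 2 (D + 1)) * 1 := by
      have h3 : D + 1 < 2 ^ (Nat.log 2 (D + 1) + 1) := Nat.lt_pow_succ_log_self (by norm_num) _
      have h4 : 3 + D * (2 * (2 ^ k + 1)) ≤ 2 ^ (k + 3 + Nat.log 2 (D + 1)) := by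
        have h5 : 2 ^ (k + 3 + Nat.log 2 (D + 1)) = 2 ^ k * 4 * 2 ^ (Nat.log 2 (D + 1) + 1) := by
          rw [show k + 3 + Nat.log 2 (D + 1) = k + 2 + (Nat.log 2 (D + 1) + 1) by ring, pow_add,
            pow_add]
          norm_num
        rw [h5]
        have h6 : 1 ≤ 2 ^ k := Nat.one_le_two_pow
        have h7 : 2 ^ k * 4 * (D + 1) ≤ 2 ^ k * 4 * 2 ^ (Nat.log 2 (D + 1) + 1) :=
          Nat.mul_le_mul_left _ h3.le
        nlinarith
      rw [ht, mul_one]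
      exact_mod_cast h4
    have h5 : (LL N₀ (3 + D * t)).ncard ≤
        (4 * D + 1) ^ (D * (k + 3 + Nat.log 2 (D + 1))) * (LL N₀ 1).ncard :=
      (Set.ncard_le_ncard (LL_mono h2) (LL_finite hN₀ _)).trans (LL_dbl hN₀ zero_le_one _)
    have h6 : (LL N₀ 1).ncard * Nat.card H₀ ≤ A.card := by
      have h7 : LL N₀ 1 = {c : Fin D → ℤ | (fun i => (c i : ℝ)) ∈ B} := by
        ext c
        exact hNB _
      rw [h7]
      exact hvol
    calc (LL N 3).ncard * Nat.card H ≤ (LL N₀ (3 + D * t)).ncard * Nat.card H₀ := h1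
      _ ≤ ((4 * D + 1) ^ (D * (k + 3 + Nat.log 2 (D + 1))) * (LL N₀ 1).ncard) * Nat.card H₀ :=
        Nat.mul_le_mul_right _ h5
      _ = (4 * D + 1) ^ (D * (k + 3 + Nat.log 2 (D + 1))) * ((LL N₀ 1).ncard * Nat.card H₀) := by
        ring
      _ ≤ _ := Nat.mul_le_mul_left _ h6
  · calc (A.card : ℝ) ≤ K * X.card := hX1
      _ ≤ K * (Q * A₁.card) := mul_le_mul_of_nonneg_left hzX' (by linarith)
      _ = _ := by ring
  · have h1 : ((A₁ + A₁.image fun a => 2 ^ k • a).card : ℝ) ≤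
        (X + X.image fun a => 2 ^ k • a).card := by
      exact_mod_cast card_le_card (add_subset_add hA₁X (image_subset_image hA₁X))
    calc ((A₁ + A₁.image fun a => 2 ^ k • a).card : ℝ) ≤ K ^ (k + 1) * X.card :=
          h1.trans (hXk k)
      _ ≤ K ^ (k + 1) * (Q * A₁.card) := mul_le_mul_of_nonneg_left hzX' (by positivity)
      _ = _ := by ring

end Pool.Agent.Run7.h127.SN
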