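import Pool.Agent.Run7.h127.SD.Gen

/-!
# Sums of dilates by powers of two in arbitrary abelian groups
-/

set_option autoImplicit false
set_option linter.unusedSectionVars false

namespace Pool.Agent.Run7.h127.SN

open Finset
open scoped Pointwise
open SD (lev mem_lev lev_sub sum_lev)

section lev2

variable {G W : Type*} [AddCommGroup G] [AddCommGroup W] [DecidableEq G] [DecidableEq W]

/-- the sums of the level sets with all values of a second set -/
lemma sum_lev_add2 (π : G →+ W) (S T : Finset G) (hT : T.Nonempty) :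
    ∑ t ∈ Icc 1 S.card, (lev π S t + T.image π).card ≤ (S + T).card := by
  have h1 : ∀ t ∈ Icc 1 S.card, (lev π S t + T.image π).card ≤ (lev π (S + T) t).card := by
    intro t _
    refine card_le_card fun z hz => ?_
    obtain ⟨u, hu, v, hv, rfl⟩ := mem_add.1 hz
    obtain ⟨hu1, hu2⟩ := mem_lev.1 hu
    obtain ⟨a, ha, rfl⟩ := mem_image.1 hu1
    obtain ⟨b, hb, rfl⟩ := mem_image.1 hv
    rw [mem_lev]
    refine ⟨mem_image.2 ⟨a + b, add_mem_add ha hb, map_add _ _ _⟩, hu2.trans ?_⟩
    refine card_le_card_of_injOn (fun s => s + b) ?_ ?_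
    · intro s hs
      rw [mem_coe, mem_filter] at hs
      rw [mem_coe, mem_filter]
      exact ⟨add_mem_add hs.1 hb, by rw [map_add, hs.2]⟩
    · intro s _ s' _ hss
      exact add_right_cancel hss
  refine (sum_le_sum h1).trans ?_
  have h2 : S.card ≤ (S + T).card := card_le_card_add_right hT
  refine (sum_le_sum_of_subset (Icc_subset_Icc_right h2)).trans ?_
  rw [sum_lev]

/-- a level set with few sums, no control of the level -/
lemma exists_lev0 (π : G →+ W) {S T : Finset G} (hS : S.Nonempty) (hT : T.Nonempty) {K : ℝ}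
    (hK : ((S + T).card : ℝ) ≤ K * S.card) :
    ∃ t : ℕ, (lev π S t).Nonempty ∧ ((lev π S t + T.image π).card : ℝ) ≤ K * (lev π S t).card := by
  by_contra hcon
  push Not at hcon
  have hN : (0 : ℝ) < S.card := by exact_mod_cast card_pos.2 hS
  have h1 : ∑ t ∈ Icc 1 S.card, ((lev π S t + T.image π).card : ℝ) ≤ (S + T).card := by
    exact_mod_cast sum_lev_add2 π S T hT
  have htot : ∑ t ∈ Icc 1 S.card, ((lev π S t).card : ℝ) = S.card := by
    exact_mod_cast sum_lev π S
  have h2 : ∑ t ∈ Icc 1 S.card, K * ((lev π S t).card : ℝ) <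
      ∑ t ∈ Icc 1 S.card, ((lev π S t + T.image π).card : ℝ) := by
    refine sum_lt_sum ?_ ?_
    · intro t _
      rcases (lev π S t).eq_empty_or_nonempty with h0 | h0
      · rw [h0]
        simp
      · exact (hcon t h0).le
    · have h3 : ∃ t ∈ Icc 1 S.card, (lev π S t).Nonempty := by
        by_contra h4
        push Not at h4
        have h5 : ∑ t ∈ Icc 1 S.card, ((lev π S t).card : ℝ) = 0 := by
          refine sum_eq_zero fun t ht => ?_
          rw [h4 t ht]
          simp
        linarith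
      obtain ⟨t, ht, htn⟩ := h3
      exact ⟨t, ht, hcon t htn⟩
  rw [← mul_sum, htot] at h2
  linarith

/-- **A large level set with few sums.** -/
theorem exists_level2 (π : G →+ W) {S T : Finset G} (hS : S.Nonempty) (hT : T.Nonempty) {K : ℝ}
    (hK : ((S + T).card : ℝ) ≤ K * S.card) (hST : (S.image π).card ≤ (T.image π).card) :
    ∃ t : ℕ, (lev π S t).Nonempty ∧
      ((lev π S t + T.image π).card : ℝ) ≤ 2 * K * (lev π S t).card ∧
      (S.card : ℝ) ≤ 4 * K * (t * (lev π S t).card) := by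
  have hN : (0 : ℝ) < S.card := by exact_mod_cast card_pos.2 hS
  have hK1 : 1 ≤ K := by
    have h1 : (S.card : ℝ) ≤ (S + T).card := by exact_mod_cast card_le_card_add_right hT
    have h2 : 1 * (S.card : ℝ) ≤ K * S.card := by linarith
    exact le_of_mul_le_mul_right h2 hN
  obtain ⟨I, hI⟩ : ∃ I, I = (Icc 1 S.card).filter (fun t => (lev π S t).Nonempty ∧
    ((lev π S t + T.image π).card : ℝ) ≤ 2 * K * (lev π S t).card) := ⟨_, rfl⟩
  have hbad : ∑ t ∈ (Icc 1 S.card).filter (fun t => ¬ ((lev π S t).Nonempty ∧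
      ((lev π S t + T.image π).card : ℝ) ≤ 2 * K * (lev π S t).card)),
      ((lev π S t).card : ℝ) ≤ S.card / 2 := by
    have h1 : ∀ t ∈ (Icc 1 S.card).filter (fun t => ¬ ((lev π S t).Nonempty ∧
        ((lev π S t + T.image π).card : ℝ) ≤ 2 * K * (lev π S t).card)),
        ((lev π S t).card : ℝ) ≤ ((lev π S t + T.image π).card : ℝ) / (2 * K) := by
      intro t ht
      rw [mem_filter] at ht
      rcases (lev π S t).eq_empty_or_nonempty with h0 | h0
      · rw [h0, card_empty, Nat.cast_zero]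
        positivity
      · have h2 := ht.2
        rw [not_and] at h2
        have h3 := h2 h0
        rw [not_le] at h3
        rw [le_div_iff₀ (by positivity)]
        linarith
    refine (sum_le_sum h1).trans ?_
    rw [← sum_div, div_le_iff₀ (by positivity)]
    have h2 : ∑ t ∈ (Icc 1 S.card).filter (fun t => ¬ ((lev π S t).Nonempty ∧
        ((lev π S t + T.image π).card : ℝ) ≤ 2 * K * (lev π S t).card)),
        ((lev π S t + T.image π).card : ℝ) ≤
        ∑ t ∈ Icc 1 S.card, ((lev π S t + T.image π).card : ℝ) :=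
      sum_le_sum_of_subset_of_nonneg (filter_subset _ _) fun _ _ _ => by positivity
    have h3 : ∑ t ∈ Icc 1 S.card, ((lev π S t + T.image π).card : ℝ) ≤ (S + T).card := by
      exact_mod_cast sum_lev_add2 π S T hT
    refine (h2.trans h3).trans (hK.trans (le_of_eq ?_))
    ring
  have htot : ∑ t ∈ Icc 1 S.card, ((lev π S t).card : ℝ) = S.card := by
    exact_mod_cast sum_lev π S
  rw [← sum_filter_add_sum_filter_not (Icc 1 S.card) (fun t => (lev π S t).Nonempty ∧
    ((lev π S t + T.image π).card : ℝ) ≤ 2 * K * (lev π S t).card), ← hI] at htot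
  have hgood : (S.card : ℝ) / 2 ≤ ∑ t ∈ I, ((lev π S t).card : ℝ) := by linarith
  have hIne : I.Nonempty := by
    rw [nonempty_iff_ne_empty]
    intro h0
    rw [h0, sum_empty] at hgood
    linarith
  obtain ⟨t, htI, hmax⟩ := I.exists_max_image id hIne
  have ht2 : (lev π S t).Nonempty ∧
      ((lev π S t + T.image π).card : ℝ) ≤ 2 * K * (lev π S t).card := by
    rw [hI, mem_filter] at htI
    exact htI.2
  obtain ⟨hne, ht3⟩ := ht2
  have himg : ((S.image π).card : ℝ) ≤ 2 * K * (lev π S t).card := by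
    have h1 : ((T.image π).card : ℝ) ≤ (lev π S t + T.image π).card := by
      exact_mod_cast card_le_card_add_left hne
    have h2 : ((S.image π).card : ℝ) ≤ (T.image π).card := by exact_mod_cast hST
    linarith
  refine ⟨t, hne, ht3, ?_⟩
  have h1 : ∑ s ∈ I, ((lev π S s).card : ℝ) ≤ ∑ s ∈ I, ((S.image π).card : ℝ) :=
    sum_le_sum fun s _ => by exact_mod_cast card_le_card (lev_sub π S s)
  rw [sum_const, nsmul_eq_mul] at h1
  have h2 : I.card ≤ t := by
    have h3 : I ⊆ Icc 1 t := by
      intro s hs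
      have h4 := hmax s hs
      simp only [id] at h4
      rw [hI, mem_filter, mem_Icc] at hs
      exact mem_Icc.2 ⟨hs.1.1, h4⟩
    have h4 := card_le_card h3
    rw [Nat.card_Icc] at h4
    omega
  have h3 : (I.card : ℝ) * (S.image π).card ≤ t * (2 * K * (lev π S t).card) :=
    mul_le_mul (by exact_mod_cast h2) himg (by positivity) (by positivity)
  linarith

end lev2

section dil

variable {Γ : Type*} [AddCommGroup Γ] [DecidableEq Γ]

/-- a subset with the smallest ratio -/
lemma exists_ratio {P A : Finset Γ} {K : ℝ} {L : Finset Γ} (hL : L.Nonempty) (hLP : L ⊆ P)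
    (hLA : ((L + A).card : ℝ) ≤ K * L.card) :
    ∃ Y ⊆ P, Y.Nonempty ∧ ((Y + A).card : ℝ) ≤ K * Y.card ∧
      ∀ Z ⊆ Y, (Y + A).card * Z.card ≤ (Z + A).card * Y.card := by
  obtain ⟨Y, hY, hmin⟩ := (P.powerset.filter fun X => X.Nonempty).exists_min_image
    (fun X => ((X + A).card : ℝ) / X.card) ⟨L, mem_filter.2 ⟨mem_powerset.2 hLP, hL⟩⟩
  rw [mem_filter, mem_powerset] at hY
  obtain ⟨hYP, hY0⟩ := hY
  have hM : (0 : ℝ) < Y.card := by exact_mod_cast card_pos.2 hY0
  refine ⟨Y, hYP, hY0, ?_, ?_⟩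
  · have h1 := hmin L (mem_filter.2 ⟨mem_powerset.2 hLP, hL⟩)
    have hL0 : (0 : ℝ) < L.card := by exact_mod_cast card_pos.2 hL
    have h2 : ((L + A).card : ℝ) / L.card ≤ K := by
      rw [div_le_iff₀ hL0]
      exact hLA
    have h3 := h1.trans h2
    rwa [div_le_iff₀ hM] at h3
  · intro Z hZ
    rcases Z.eq_empty_or_nonempty with rfl | hZ0
    · simp
    · have hZ1 : (0 : ℝ) < Z.card := by exact_mod_cast card_pos.2 hZ0
      have h3 := hmin Z (mem_filter.2 ⟨mem_powerset.2 (hZ.trans hYP), hZ0⟩)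
      rw [div_le_div_iff₀ hM hZ1] at h3
      exact_mod_cast h3

/-- Petridis's inequality for a subset with the smallest ratio -/
lemma petridis {Y A : Finset Γ} (hY : Y.Nonempty) {K : ℝ} (hK : ((Y + A).card : ℝ) ≤ K * Y.card)
    (hmin : ∀ Z ⊆ Y, (Y + A).card * Z.card ≤ (Z + A).card * Y.card) (C : Finset Γ) :
    ((C + Y + A).card : ℝ) ≤ K * (C + Y).card := by
  have hM : (0 : ℝ) < Y.card := by exact_mod_cast card_pos.2 hY
  have h3 := pluennecke_petridis_inequality_add (A := Y) (B := A) C hmin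
  have h4 : ((C + Y + A).card : ℝ) * Y.card ≤ ((Y + A).card : ℝ) * (C + Y).card := by
    exact_mod_cast h3
  have h5 : ((C + Y + A).card : ℝ) * Y.card ≤ (K * (C + Y).card) * Y.card := by
    refine h4.trans ?_
    have h6 : ((Y + A).card : ℝ) * (C + Y).card ≤ (K * Y.card) * (C + Y).card :=
      mul_le_mul_of_nonneg_right hK (by positivity)
    linarith
  exact le_of_mul_le_mul_right h5 hM

lemma dil_succ (k : ℕ) (A : Finset Γ) :
    (SD.dil k A).image (fun a => 2 • a) = SD.dil (k + 1) A := by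
  unfold SD.dil
  rw [image_image]
  refine image_congr fun a _ => ?_
  show 2 • 2 ^ k • a = 2 ^ (k + 1) • a
  rw [pow_succ, mul_nsmul]

/-- **Sums of dilates by powers of two, every abelian group.** -/
theorem dil_le {A : Finset Γ} (hA : A.Nonempty) {K : ℝ}
    (hK : ((A + A).card : ℝ) ≤ K * A.card) (k : ℕ) :
    ((A + A.image fun a => 2 ^ k • a).card : ℝ) ≤ K ^ (k + 2) * A.card := by
  have hN : (0 : ℝ) < A.card := by exact_mod_cast card_pos.2 hA
  have hK1 : 1 ≤ K := by
    have h1 : (A.card : ℝ) ≤ (A + A).card := by exact_mod_cast card_le_card_add_left hA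
    have h2 : 1 * (A.card : ℝ) ≤ K * A.card := by linarith
    exact le_of_mul_le_mul_right h2 hN
  have hK0 : 0 < K := by linarith
  have key : ∀ j : ℕ, ∃ Y ⊆ SD.dil j A, Y.Nonempty ∧
      ((Y + SD.dil j A).card : ℝ) ≤ K * Y.card ∧
      (∀ Z ⊆ Y, (Y + SD.dil j A).card * Z.card ≤ (Z + SD.dil j A).card * Y.card) ∧
      ((A + Y).card : ℝ) ≤ K ^ (j + 1) * A.card := by
    intro j
    induction j with
    | zero =>
      have e1 : SD.dil 0 A = A := by
        unfold SD.dil
        simp
      rw [e1]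
      obtain ⟨Y, hYA, hY0, hY1, hY2⟩ := exists_ratio hA (Subset.refl A) hK
      refine ⟨Y, hYA, hY0, hY1, hY2, ?_⟩
      rw [zero_add, pow_one]
      refine le_trans ?_ hK
      exact_mod_cast card_le_card (add_subset_add_left hYA)
    | succ j ih =>
      obtain ⟨Y, hYA, hY0, hY1, hY2, hY3⟩ := ih
      obtain ⟨π, hπ⟩ : ∃ π : Γ →+ Γ, π = nsmulAddMonoidHom 2 := ⟨_, rfl⟩
      have hπa : ∀ a, π a = 2 • a := fun a => by rw [hπ]; rfl
      have hπA : (SD.dil j A).image π = SD.dil (j + 1) A := by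
        rw [← dil_succ]
        exact image_congr fun a _ => hπa a
      have hDA : (SD.dil j A).Nonempty := hA.image _
      obtain ⟨t, ht0, ht1⟩ := exists_lev0 π hY0 hDA hY1
      rw [hπA] at ht1
      obtain ⟨Z, hZP, hZ0, hZ1, hZ2⟩ := exists_ratio ht0 (lev_sub π Y t) ht1
      refine ⟨Z, ?_, hZ0, hZ1, hZ2, ?_⟩
      · rw [← hπA]
        exact hZP.trans (image_subset_image hYA)
      · have h1 : A + Z ⊆ A + Y + SD.dil j A := by
          intro x hx
          obtain ⟨a, ha, z, hz, rfl⟩ := mem_add.1 hx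
          obtain ⟨y, hy, rfl⟩ := mem_image.1 (hZP hz)
          rw [hπa, two_nsmul, ← add_assoc]
          exact add_mem_add (add_mem_add ha hy) (hYA hy)
        calc ((A + Z).card : ℝ) ≤ (A + Y + SD.dil j A).card := by exact_mod_cast card_le_card h1
          _ ≤ K * (A + Y).card := petridis hY0 hY1 hY2 A
          _ ≤ K * (K ^ (j + 1) * A.card) := mul_le_mul_of_nonneg_left hY3 hK0.le
          _ = _ := by ring
  obtain ⟨Y, hYA, ⟨y, hy⟩, hY1, hY2, hY3⟩ := key k
  have h1 : (A + SD.dil k A).card ≤ (A + Y + SD.dil k A).card := by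
    refine card_le_card_of_injOn (fun x => x + y) ?_ fun a _ b _ hab => add_right_cancel hab
    intro x hx
    obtain ⟨a, ha, z, hz, rfl⟩ := mem_add.1 (mem_coe.1 hx)
    have h2 : a + z + y = a + y + z := by abel
    show a + z + y ∈ (A + Y + SD.dil k A : Finset Γ)
    rw [h2]
    exact add_mem_add (add_mem_add ha hy) hz
  calc ((A + A.image fun a => 2 ^ k • a).card : ℝ) ≤ (A + Y + SD.dil k A).card := by
        exact_mod_cast h1
    _ ≤ K * (A + Y).card := petridis ⟨y, hy⟩ hY1 hY2 A
    _ ≤ K * (K ^ (k + 1) * A.card) := mul_le_mul_of_nonneg_left hY3 hK0.le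
    _ = _ := by ring

end dil

end Pool.Agent.Run7.h127.SN
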