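import Pool.Agent.Run7.h127.SN.Shrink
import Pool.Agent.Run7.h127.SN.Dil

/-!
# Freiman–Ruzsa with sharp dimension in arbitrary abelian groups
-/

set_option autoImplicit false
set_option linter.unusedSectionVars false

namespace Pool.Agent.Run7.h127.SN

open H112 Finset
open scoped Pointwise

universe u

variable {Γ : Type u} [AddCommGroup Γ] [DecidableEq Γ]

/-- **The class.** -/
theorem exists_cell_gen {A : Finset Γ}
    (hA : A.Nonempty) {K : ℝ} (hK : ((A + A).card : ℝ) ≤ K * A.card) (hK1 : 1 ≤ K) (k : ℕ) :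
    ∃ (D : ℕ) (d : ℕ) (N : Seminorm ℝ (Fin d → ℝ)) (ψ : (Fin d → ℤ) →+ Γ) (H : AddSubgroup Γ)
      (z : Γ) (A₁ : Finset Γ) (g : Γ → (Fin d → ℤ)),
      (D : ℝ) ≤ 300 * Real.log (2 * K) ∧ (∀ x, N x = 0 → x = 0) ∧ Finite H ∧
      (LL N 3).ncard * Nat.card H ≤ (4 * D + 1) ^ (D * (k + 3 + Nat.log 2 (D + 1))) * A.card ∧
      A₁ ⊆ A ∧ A₁.Nonempty ∧
      (A.card : ℝ) ≤ (2 * K) ^ (13000 * (1 + Real.log (1 + Real.log (2 * K)))) * A₁.card ∧
      ((A₁ + A₁.image fun a => 2 ^ k • a).card : ℝ) ≤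
        K ^ (k + 2) * (2 * K) ^ (13000 * (1 + Real.log (1 + Real.log (2 * K)))) * A₁.card ∧
      IsAddFreimanHom (2 ^ k + 1) (A₁ : Set Γ) Set.univ g ∧
      ∀ a ∈ A₁, g a ∈ LL N 1 ∧ a - z - ψ (g a) ∈ H := by
  classical
  obtain ⟨D, B, ψ₀, H₀, T, hD, hB, hH₀, hvol, hT, hcov⟩ := near_pfr hA hK
  obtain ⟨N₀, hN₀, hNB⟩ := exists_norm hB
  obtain ⟨t, ht⟩ : ∃ t : ℝ, t = 2 * (2 ^ k + 1) := ⟨_, rfl⟩
  have ht0 : 0 ≤ t := by rw [ht]; positivity
  obtain ⟨d, N, ψ, H, hd, hN, hH, hp, hc, hn⟩ := proper ht0 D N₀ hN₀ ψ₀ H₀ hH₀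
  have hcovA : ∀ a ∈ A, ∃ z ∈ T, ∃ c ∈ LL N 1, ∃ h ∈ H, a = z + ψ c + h := by
    intro a ha
    obtain ⟨z, hz, c, hcB, h, hh, e⟩ := hcov a ha
    obtain ⟨c', hc', h', hh', e'⟩ := hc 1 zero_le_one c ((hNB _).2 hcB) h hh
    refine ⟨z, hz, c', hc', h', hh', ?_⟩
    rw [e, add_assoc, e', ← add_assoc]
  choose! τ hτT hτ using hcovA
  obtain ⟨z, hz, hzX⟩ := exists_class hA (T := T) (τ := τ) hτT
  obtain ⟨A₁, hA₁⟩ : ∃ A₁, A₁ = A.filter fun x => τ x = z := ⟨_, rfl⟩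
  rw [← hA₁] at hzX
  have hA₁X : A₁ ⊆ A := by rw [hA₁]; exact filter_subset _ _
  have hA₁0 : A₁.Nonempty := by
    rw [nonempty_iff_ne_empty]
    intro h0
    rw [h0, card_empty, mul_zero] at hzX
    have := card_pos.2 hA
    omega
  obtain ⟨Q, hQ⟩ : ∃ Q : ℝ, Q = (2 * K) ^ (13000 * (1 + Real.log (1 + Real.log (2 * K)))) :=
    ⟨_, rfl⟩
  rw [← hQ] at hT ⊢
  have hQ0 : 0 ≤ Q := by rw [hQ]; positivity
  have hzX' : (A.card : ℝ) ≤ Q * A₁.card := by
    calc (A.card : ℝ) ≤ T.card * A₁.card := by exact_mod_cast hzX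
      _ ≤ Q * A₁.card := mul_le_mul_of_nonneg_right hT (by positivity)
  obtain ⟨g, hg1, hg2⟩ := lift (N := N) (ψ := ψ) (H := H) (n := 2 ^ k + 1) (S := (A₁ : Set Γ))
    (z := z) (by
      intro c hc0 hct
      refine hp c hc0 ?_
      rw [ht]
      push_cast at hct
      exact hct) (by
      intro a ha
      have h1 : a ∈ A ∧ τ a = z := by
        rw [mem_coe, hA₁, mem_filter] at ha
        exact ha
      have h2 := hτ a h1.1
      rw [h1.2] at h2
      exact h2)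
  refine ⟨D, d, N, ψ, H, z, A₁, g, hD, hN, hH, ?_, hA₁X, hA₁0, hzX', ?_, hg1,
    fun a ha => hg2 a (mem_coe.2 ha)⟩
  · have h1 := hn 3 (by norm_num)
    have h2 : (3 : ℝ) + D * t ≤ 2 ^ (k + 3 + Nat.log 2 (D + 1)) * 1 := by
      have h3 : D + 1 < 2 ^ (Nat.log 2 (D + 1) + 1) := Nat.lt_pow_succ_log_self (by norm_num) _
      have h4 : 3 + D * (2 * (2 ^ k + 1)) ≤ 2 ^ (k + 3 + Nat.log 2 (D + 1)) := by
        have h5 : 2 ^ (k + 3 + Nat.log 2 (D + 1)) = 2 ^ k * 4 * 2 ^ (Nat.log 2 (D + 1) + 1) := by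
          rw [show k + 3 + Nat.log 2 (D + 1) = k + 2 + (Nat.log 2 (D + 1) + 1) by ring, pow_add,
            pow_add]
          norm_num
        rw [h5]
        have h6 : 1 ≤ 2 ^ k := Nat.one_le_two_pow
        have h7 : 2 ^ k * 4 * (D + 1) ≤ 2 ^ k * 4 * 2 ^ (Nat.log 2 (D + 1) + 1) :=
          Nat.mul_le_mul_left _ h3.le
        nlinarith
      rw [ht, mul_one]
      exact_mod_cast h4
    have h5 : (LL N₀ (3 + D * t)).ncard ≤
        (4 * D + 1) ^ (D * (k + 3 + Nat.log 2 (D + 1))) * (LL N₀ 1).ncard :=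
      (Set.ncard_le_ncard (LL_mono h2) (LL_finite hN₀ _)).trans (LL_dbl hN₀ zero_le_one _)
    have h6 : (LL N₀ 1).ncard * Nat.card H₀ ≤ A.card := by
      have h7 : LL N₀ 1 = {c : Fin D → ℤ | (fun i => (c i : ℝ)) ∈ B} := by
        ext c
        exact hNB _
      rw [h7]
      exact hvol
    calc (LL N 3).ncard * Nat.card H ≤ (LL N₀ (3 + D * t)).ncard * Nat.card H₀ := h1
      _ ≤ ((4 * D + 1) ^ (D * (k + 3 + Nat.log 2 (D + 1))) * (LL N₀ 1).ncard) * Nat.card H₀ :=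
        Nat.mul_le_mul_right _ h5
      _ = (4 * D + 1) ^ (D * (k + 3 + Nat.log 2 (D + 1))) * ((LL N₀ 1).ncard * Nat.card H₀) := by
        ring
      _ ≤ _ := Nat.mul_le_mul_left _ h6
  · have h1 : ((A₁ + A₁.image fun a => 2 ^ k • a).card : ℝ) ≤
        (A + A.image fun a => 2 ^ k • a).card := by
      exact_mod_cast card_le_card (add_subset_add hA₁X (image_subset_image hA₁X))
    calc ((A₁ + A₁.image fun a => 2 ^ k • a).card : ℝ) ≤ K ^ (k + 2) * A.card :=
          h1.trans (dil_le hA hK k)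
      _ ≤ K ^ (k + 2) * (Q * A₁.card) := mul_le_mul_of_nonneg_left hzX' (by positivity)
      _ = _ := by ring

/-- **Level sets of a Freiman homomorphism.** -/
theorem exists_fib {W : Type*} [AddCommGroup W] [IsAddTorsionFree W] [DecidableEq W] {q : ℕ}
    (hq : 1 ≤ q) {A : Finset Γ} (hA : A.Nonempty) {g : Γ → W}
    (hg : IsAddFreimanHom (q + 1) (A : Set Γ) Set.univ g) {K : ℝ}
    (hK : ((A + A.image fun a => q • a).card : ℝ) ≤ K * A.card) :
    ∃ (t : ℕ) (L : Finset W), L.Nonempty ∧ L ⊆ A.image g ∧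
      ((L + L.image fun b => q • b).card : ℝ) ≤ 2 * K * L.card ∧
      (A.card : ℝ) ≤ 4 * K * (t * L.card) ∧
      ∀ L' ⊆ L, t * L'.card ≤ (A.filter fun a => g a ∈ L').card := by
  classical
  obtain ⟨e, he⟩ : ∃ e : Γ → Γ × W, e = fun a => (a, g a) := ⟨_, rfl⟩
  have hfst : ∀ a, (e a).1 = a := fun a => by rw [he]
  have hsnd : ∀ a, (e a).2 = g a := fun a => by rw [he]
  have hinj : Function.Injective e := fun a b hab => by
    rw [← hfst a, ← hfst b, hab]
  obtain ⟨S, hS⟩ : ∃ S, S = A.image e := ⟨_, rfl⟩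
  obtain ⟨T, hT⟩ : ∃ T, T = S.image (fun s => q • s) := ⟨_, rfl⟩
  have hSc : S.card = A.card := by rw [hS, card_image_of_injective _ hinj]
  have hSne : S.Nonempty := by rw [hS]; exact hA.image e
  have hTne : T.Nonempty := by rw [hT]; exact hSne.image _
  have hcm := SD.cm_of_freiman hq hg (B := A) (A := A) (fun b hb => hb) (fun a ha => ha)
  have hSS : (S + T).card ≤ (A + A.image fun a => q • a).card := by
    refine card_le_card_of_injOn Prod.fst ?_ ?_
    · intro z hz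
      obtain ⟨x, hx, y, hy, rfl⟩ := mem_add.1 (mem_coe.1 hz)
      rw [hT] at hy
      obtain ⟨y', hy', rfl⟩ := mem_image.1 hy
      rw [hS] at hx hy'
      obtain ⟨a, ha, rfl⟩ := mem_image.1 hx
      obtain ⟨b, hb, rfl⟩ := mem_image.1 hy'
      rw [Prod.fst_add, Prod.smul_fst, hfst, hfst]
      exact mem_coe.2 (add_mem_add ha (mem_image_of_mem _ hb))
    · intro z hz z' hz' hzz
      obtain ⟨x, hx, y, hy, rfl⟩ := mem_add.1 (mem_coe.1 hz)
      obtain ⟨x', hx', y', hy', rfl⟩ := mem_add.1 (mem_coe.1 hz')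
      rw [hT] at hy hy'
      obtain ⟨w, hw, rfl⟩ := mem_image.1 hy
      obtain ⟨w', hw', rfl⟩ := mem_image.1 hy'
      rw [hS] at hx hw hx' hw'
      obtain ⟨a, ha, rfl⟩ := mem_image.1 hx
      obtain ⟨b, hb, rfl⟩ := mem_image.1 hw
      obtain ⟨a', ha', rfl⟩ := mem_image.1 hx'
      obtain ⟨b', hb', rfl⟩ := mem_image.1 hw'
      refine Prod.ext hzz ?_
      rw [Prod.fst_add, Prod.fst_add, Prod.smul_fst, Prod.smul_fst, hfst, hfst, hfst, hfst] at hzz
      rw [Prod.snd_add, Prod.snd_add, Prod.smul_snd, Prod.smul_snd, hsnd, hsnd, hsnd, hsnd]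
      exact hcm.c1 a ha b hb a' ha' b' hb' hzz
  have hSK : ((S + T).card : ℝ) ≤ K * S.card := by
    rw [hSc]
    exact le_trans (by exact_mod_cast hSS) hK
  obtain ⟨π, hπ⟩ : ∃ π : Γ × W →+ W, π = AddMonoidHom.snd Γ W := ⟨_, rfl⟩
  have hπs : ∀ z, π z = z.2 := fun z => by rw [hπ]; rfl
  have hSimg : S.image π = A.image g := by
    rw [hS, image_image]
    exact image_congr fun a _ => by rw [Function.comp_apply, hπs, hsnd]
  have hTimg : T.image π = (A.image g).image fun b => q • b := by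
    rw [hT, image_image, ← hSimg, image_image]
    exact image_congr fun a _ => by rw [Function.comp_apply, Function.comp_apply, map_nsmul]
  have hqinj : Function.Injective fun b : W => q • b := nsmul_right_injective (by omega)
  have hST : (S.image π).card ≤ (T.image π).card := by
    rw [hTimg, hSimg, card_image_of_injective _ hqinj]
  obtain ⟨t, hL0, hLK, hLt⟩ := exists_level2 π hSne hTne hSK hST
  refine ⟨t, SD.lev π S t, hL0, ?_, ?_, ?_, ?_⟩
  · rw [← hSimg]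
    exact SD.lev_sub π S t
  · refine le_trans ?_ hLK
    have h1 : (SD.lev π S t).image (fun b => q • b) ⊆ T.image π := by
      rw [hTimg, ← hSimg]
      exact image_subset_image (SD.lev_sub π S t)
    exact_mod_cast card_le_card (add_subset_add_left h1)
  · rw [← hSc]
    exact hLt
  · intro L' hL'
    refine (SD.card_preimage_ge π S hL').trans ?_
    refine card_le_card_of_injOn Prod.fst ?_ ?_
    · intro s hs
      rw [mem_coe, mem_filter, hS] at hs
      obtain ⟨hs1, hs2⟩ := hs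
      obtain ⟨a, ha, rfl⟩ := mem_image.1 hs1
      rw [hπs, hsnd] at hs2
      rw [mem_coe, mem_filter, hfst]
      exact ⟨ha, hs2⟩
    · intro s hs s' hs' hss
      rw [mem_coe, mem_filter, hS] at hs hs'
      obtain ⟨a, ha, rfl⟩ := mem_image.1 hs.1
      obtain ⟨a', ha', rfl⟩ := mem_image.1 hs'.1
      rw [hfst, hfst] at hss
      rw [hss]

end Pool.Agent.Run7.h127.SN
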