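import Pool.Agent.Run7.h127.SN.GenFinal

/-!
# Freiman–Ruzsa with sharp dimension in arbitrary abelian groups: volume at most `|A|`
-/

set_option autoImplicit false
set_option linter.unusedSectionVars false

namespace Pool.Agent.Run7.h127.SN

open H112 Finset
open scoped Pointwise

universe u

variable {Γ : Type u} [AddCommGroup Γ] [DecidableEq Γ]

/-- **Freiman–Ruzsa, sharp dimension, volume at most `|A|`.** -/
theorem final_gen {A : Finset Γ}
    (hA : A.Nonempty) {K : ℝ} (hK : ((A + A).card : ℝ) ≤ K * A.card)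
    {ε : ℝ} (hε : 0 < ε) (hε1 : ε ≤ 1) :
    ∃ (d : ℕ) (B : Set (Fin d → ℝ)) (ψ : (Fin d → ℤ) →+ Γ) (H : AddSubgroup Γ) (T : Finset Γ),
      ((d : ℝ) ≤ 1 ∨ (d : ℝ) * Real.log 2 ≤ (1 + ε) * Real.log K + ε * Real.log 2) ∧
      SymmBody B ∧ Finite H ∧
      {c : Fin d → ℤ | (fun i => (c i : ℝ)) ∈ B}.ncard * Nat.card H ≤ A.card ∧
      (T.card : ℝ) ≤ (2 * K) ^ (10 ^ 21 * (1 + Real.log (1 + Real.log (2 * K))) ^ 2 / ε ^ 4) ∧
      ∀ a ∈ A, ∃ t ∈ T, ∃ c : Fin d → ℤ, (fun i => (c i : ℝ)) ∈ B ∧ ∃ h ∈ H, a = t + ψ c + h := by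
  classical
  have hN : (0 : ℝ) < A.card := by exact_mod_cast card_pos.2 hA
  have hK1 : 1 ≤ K := by
    have h1 : (A.card : ℝ) ≤ (A + A).card := by exact_mod_cast card_le_card_add_left hA
    have h2 : 1 * (A.card : ℝ) ≤ K * A.card := by linarith
    exact le_of_mul_le_mul_right h2 hN
  have hK0 : 0 < K := by linarith
  obtain ⟨lam, hlam⟩ : ∃ lam, lam = 1 + Real.log (1 + Real.log (2 * K)) := ⟨_, rfl⟩
  obtain ⟨κ, hκ⟩ : ∃ κ, κ = Real.log (2 * K) := ⟨_, rfl⟩
  have hlam' : lam = 1 + Real.log (1 + κ) := by rw [hlam, hκ]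
  have hlog2 : 0 < Real.log 2 := Real.log_pos (by norm_num)
  have hlogK : 0 ≤ Real.log K := Real.log_nonneg hK1
  have hκ' : κ = Real.log 2 + Real.log K := by
    rw [hκ, Real.log_mul (by norm_num) hK0.ne']
  have hκ69 : (0.69 : ℝ) < κ := by
    have := log_two_gt
    linarith
  have hκ0 : 0 < κ := by linarith
  have hlam1 : 1 ≤ lam := by
    rw [hlam']
    have : 0 ≤ Real.log (1 + κ) := Real.log_nonneg (by linarith)
    linarith
  rw [← hlam]
  obtain ⟨d, N, ψ, H, F, hNd, hH, hdim, hsize, hFA, hF, hcov⟩ := core_gen hA hK hε hε1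
  obtain ⟨E, hE⟩ : ∃ E, E = ex K ε := ⟨_, rfl⟩
  have hE' : E = 10 ^ 20 * (lam ^ 2 / ε ^ 4) := by
    rw [hE, ex, ← hlam]
    ring
  rw [← hE] at hsize hF
  have hE0 : 0 ≤ E := by rw [hE']; positivity
  have h2K : 1 ≤ (2 * K) ^ E := Real.one_le_rpow (by linarith) hE0
  have hw : lam ≤ lam ^ 2 / ε ^ 4 := by
    rw [le_div_iff₀ (by positivity)]
    have h7 : ε ^ 4 ≤ 1 := pow_le_one₀ hε.le hε1
    calc lam * ε ^ 4 ≤ lam * 1 := mul_le_mul_of_nonneg_left h7 (by positivity)
      _ ≤ lam * lam := mul_le_mul_of_nonneg_left hlam1 (by positivity)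
      _ = lam ^ 2 := by ring
  have hw1 : 1 ≤ lam ^ 2 / ε ^ 4 := hlam1.trans hw
  have hE9 : 10 ^ 21 * lam ^ 2 / ε ^ 4 = 10 ^ 21 * (lam ^ 2 / ε ^ 4) := by ring
  have hHpos : 0 < Nat.card H := Nat.card_pos
  have hAc : 0 < A.card := card_pos.2 hA
  rcases Nat.lt_or_ge A.card (Nat.card H) with hbig | hsmall
  · -- a large subgroup
    obtain ⟨l, g, H₁, T', hfin1, hle, hvol, hT', hcovH⟩ := big_subgroup H hH hAc hbig
    let ψ' : (Fin 1 → ℤ) →+ Γ :=
      { toFun := fun c => c 0 • g
        map_zero' := by simp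
        map_add' := fun a b => by simp [add_smul] }
    let N1 : Seminorm ℝ (Fin 1 → ℝ) := normSeminorm ℝ (Fin 1 → ℝ)
    have hN1 : ∀ x : Fin 1 → ℝ, N1 x = |x 0| := by
      intro x
      show ‖x‖ = |x 0|
      rw [← Real.norm_eq_abs]
      apply le_antisymm
      · rw [pi_norm_le_iff_of_nonneg (norm_nonneg _)]
        intro i
        rw [Subsingleton.elim i 0]
      · exact norm_le_pi_norm x 0
    set LF := (LL_finite hNd 1).toFinset with hLF
    have hLFc : LF.card = (LL N 1).ncard := (Set.ncard_eq_toFinset_card _ _).symm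
    set T : Finset Γ := (F ×ˢ (LF ×ˢ T')).image (fun p => p.1 + ψ p.2.1 + p.2.2) with hT
    refine ⟨1, {x | N1 x ≤ (l : ℝ) + 1 / 2}, ψ', H₁, T, Or.inl (by norm_num), ?_, hfin1, ?_, ?_, ?_⟩
    · apply symmBody_ball N1
      · intro x hx
        exact norm_eq_zero.1 hx
      · positivity
    · have e : {c : Fin 1 → ℤ | (fun i => (c i : ℝ)) ∈ {x : Fin 1 → ℝ | N1 x ≤ (l : ℝ) + 1 / 2}} =
          (fun z : ℤ => (fun _ : Fin 1 => z)) '' (Finset.Icc (-(l : ℤ)) l : Set ℤ) := by
        ext c
        simp only [Set.mem_ofPred_eq, hN1, Set.mem_image, Finset.coe_Icc, Set.mem_Icc]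
        constructor
        · intro h
          refine ⟨c 0, ?_, ?_⟩
          · have h' : |c 0| < (l : ℤ) + 1 := by
              have : ((|c 0| : ℤ) : ℝ) < ((l : ℤ) + 1 : ℤ) := by
                push_cast
                linarith
              exact_mod_cast this
            rw [abs_lt] at h'
            constructor <;> omega
          · ext i
            rw [Subsingleton.elim i 0]
        · rintro ⟨z, hz, rfl⟩
          have : ((|z| : ℤ) : ℝ) ≤ ((l : ℤ) : ℝ) := by
            exact_mod_cast abs_le.2 hz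
          push_cast at this
          linarith
      have hcount : {c : Fin 1 → ℤ | (fun i => (c i : ℝ)) ∈
          {x : Fin 1 → ℝ | N1 x ≤ (l : ℝ) + 1 / 2}}.ncard = 2 * l + 1 := by
        rw [e, Set.ncard_image_of_injective]
        · rw [Set.ncard_coe_finset, Int.card_Icc]
          omega
        · intro a b hab
          exact congrFun hab 0
      rw [hcount]
      exact hvol
    · have hTc : T.card ≤ F.card * ((LL N 1).ncard * T'.card) := by
        rw [hT]
        refine Finset.card_image_le.trans ?_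
        rw [Finset.card_product, Finset.card_product, hLFc]
      have h5 : ((LL N 1).ncard : ℝ) * T'.card ≤ 6 * (2 * K) ^ E := by
        have h6 : ((LL N 1).ncard : ℝ) * T'.card * A.card ≤ 6 * (2 * K) ^ E * A.card := by
          calc ((LL N 1).ncard : ℝ) * T'.card * A.card =
                ((LL N 1).ncard : ℝ) * (T'.card * A.card) := by ring
            _ ≤ ((LL N 1).ncard : ℝ) * (6 * Nat.card H) :=
                mul_le_mul_of_nonneg_left hT' (by positivity)
            _ = 6 * (((LL N 1).ncard * Nat.card H : ℕ) : ℝ) := by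
                push_cast
                ring
            _ ≤ 6 * ((2 * K) ^ E * A.card) := mul_le_mul_of_nonneg_left hsize (by norm_num)
            _ = _ := by ring
        exact le_of_mul_le_mul_right h6 hN
      have h8 : (6 : ℝ) ≤ (2 * K) ^ (3 : ℝ) := by
        have h9 : (2 : ℝ) ^ (3 : ℝ) ≤ (2 * K) ^ (3 : ℝ) :=
          Real.rpow_le_rpow (by norm_num) (by linarith) (by norm_num)
        have h10 : (2 : ℝ) ^ (3 : ℝ) = 8 := by norm_num
        linarith
      calc (T.card : ℝ) ≤ F.card * (((LL N 1).ncard : ℝ) * T'.card) := by exact_mod_cast hTc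
        _ ≤ (2 * K) ^ E * ((2 * K) ^ (3 : ℝ) * (2 * K) ^ E) := by
          refine mul_le_mul hF (h5.trans ?_) (by positivity) (by positivity)
          exact mul_le_mul_of_nonneg_right h8 (by positivity)
        _ = (2 * K) ^ (E + (3 + E)) := by
          rw [Real.rpow_add (by positivity), Real.rpow_add (by positivity)]
        _ ≤ _ := by
          refine Real.rpow_le_rpow_of_exponent_le (by linarith) ?_
          rw [hE', hE9]
          linarith
    · intro a ha
      obtain ⟨f, hf, c, hc, h, hh, e⟩ := hcov a ha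
      obtain ⟨t, ht, x, hx, h', hh', e'⟩ := hcovH h hh
      refine ⟨f + ψ c + t, ?_, fun _ => x, ?_, h', hh', ?_⟩
      · rw [hT, Finset.mem_image]
        refine ⟨(f, c, t), ?_, rfl⟩
        simp only [Finset.mem_product, hLF, Set.Finite.mem_toFinset]
        exact ⟨hf, hc, ht⟩
      · simp only [Set.mem_ofPred_eq, hN1]
        have : ((|x| : ℤ) : ℝ) ≤ ((l : ℤ) : ℝ) := by exact_mod_cast hx
        push_cast at this
        linarith
      · show a = f + ψ c + t + x • g + h'
        rw [e, e']
        abel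
  · -- a small subgroup
    obtain ⟨a, haH⟩ : ∃ a, a = A.card / Nat.card H := ⟨_, rfl⟩
    have ha1 : 1 ≤ a := by
      rw [haH, Nat.le_div_iff_mul_le hHpos, one_mul]
      exact hsmall
    have ha2 : a * Nat.card H ≤ A.card := by
      rw [haH]
      exact Nat.div_mul_le_self _ _
    have ha3 : A.card ≤ 2 * a * Nat.card H := by
      have h1 : A.card < (a + 1) * Nat.card H := by
        have h2 := Nat.lt_div_mul_add hHpos (a := A.card)
        rw [← haH] at h2
        linarith [add_mul a 1 (Nat.card H)]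
      nlinarith
    have hRa : ((LL N 1).ncard : ℝ) ≤ (2 * (2 * K) ^ E) * a := by
      have h1 : ((LL N 1).ncard : ℝ) * Nat.card H ≤ ((2 * (2 * K) ^ E) * a) * Nat.card H := by
        calc ((LL N 1).ncard : ℝ) * Nat.card H = (((LL N 1).ncard * Nat.card H : ℕ) : ℝ) := by
              push_cast
              ring
          _ ≤ (2 * K) ^ E * A.card := hsize
          _ ≤ (2 * K) ^ E * ((2 * a * Nat.card H : ℕ) : ℝ) :=
            mul_le_mul_of_nonneg_left (by exact_mod_cast ha3) (by positivity)
          _ = _ := by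
            push_cast
            ring
      exact le_of_mul_le_mul_right h1 (by exact_mod_cast hHpos)
    obtain ⟨r, Y, hr0, hrc, hYc, hY⟩ := shrink hNd ha1 (R := 2 * (2 * K) ^ E) (by linarith) hRa
    have hd300 : (d : ℝ) ≤ 300 * κ := by
      have h1 : (d : ℝ) * Real.log 2 ≤ 3 * κ := by
        have h2 : (1 + ε) * Real.log K ≤ 2 * Real.log K :=
          mul_le_mul_of_nonneg_right (by linarith) hlogK
        have h3 : ε * Real.log 2 ≤ 1 * Real.log 2 :=
          mul_le_mul_of_nonneg_right (by linarith) hlog2.le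
        linarith
      have h4 := log_two_gt
      have h5 : (d : ℝ) * 0.69 ≤ d * Real.log 2 := mul_le_mul_of_nonneg_left h4.le (by positivity)
      linarith
    refine ⟨d, {x | N x ≤ r}, ψ, H, F + Y.image ψ, Or.inr hdim, symmBody_ball N hNd hr0, hH, ?_,
      ?_, ?_⟩
    · exact (Nat.mul_le_mul_right _ hrc).trans ha2
    · have h1 : ((F + Y.image ψ).card : ℝ) ≤ F.card * Y.card := by
        exact_mod_cast card_add_le.trans (Nat.mul_le_mul_left _ card_image_le)
      have h3 : Real.log (4 * d + 1) ≤ 8 * lam := by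
        rw [hlam']
        exact log_4m_le hκ69 hd300
      have h4 := pow_le_exp (x := 4 * (d : ℝ) + 1) (n := 3 * d) (c := 900 * κ) (by positivity) h3
        (by push_cast; linarith) (by positivity)
      have h5 : Real.exp (900 * κ * (8 * lam)) = (2 * K) ^ (7200 * lam) := by
        rw [Real.rpow_def_of_pos (by positivity), ← hκ]
        congr 1
        ring
      rw [h5] at h4
      have h8 : (2 : ℝ) ≤ (2 * K) ^ (1 : ℝ) := by
        rw [Real.rpow_one]
        linarith
      calc ((F + Y.image ψ).card : ℝ) ≤ F.card * Y.card := h1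
        _ ≤ (2 * K) ^ E * ((2 * K) ^ (7200 * lam) * ((2 * K) ^ (1 : ℝ) * (2 * K) ^ E)) := by
          refine mul_le_mul hF (hYc.trans ?_) (by positivity) (by positivity)
          refine mul_le_mul h4 ?_ (by positivity) (by positivity)
          exact mul_le_mul_of_nonneg_right h8 (by positivity)
        _ = (2 * K) ^ (E + (7200 * lam + (1 + E))) := by
          rw [Real.rpow_add (by positivity), Real.rpow_add (by positivity),
            Real.rpow_add (by positivity)]
        _ ≤ _ := by
          refine Real.rpow_le_rpow_of_exponent_le (by linarith) ?_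
          rw [hE', hE9]
          linarith
    · intro x hx
      obtain ⟨f, hf, c, hc, h, hh, rfl⟩ := hcov x hx
      obtain ⟨y, hy, hyc⟩ := hY c hc
      refine ⟨f + ψ y, add_mem_add hf (mem_image_of_mem ψ hy), c - y, hyc, h, hh, ?_⟩
      rw [map_sub]
      abel

end Pool.Agent.Run7.h127.SN
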