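import Pool.Agent.Run7.h127.SN.Proper
import Pool.Agent.Run7.h127.SD.Doub

/-!
# Lifting a cell of a proper convex coset progression; subspaces
-/

set_option autoImplicit false

namespace Pool.Agent.Run7.h127.SN

open H112

variable {Γ : Type*} [AddCommGroup Γ]

lemma LL_dbl {d : ℕ} {N : Seminorm ℝ (Fin d → ℝ)} (hN : ∀ x, N x = 0 → x = 0) {r : ℝ}
    (hr : 0 ≤ r) (j : ℕ) :
    (LL N (2 ^ j * r)).ncard ≤ (4 * d + 1) ^ (d * j) * (LL N r).ncard := by
  induction j with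
  | zero => simp
  | succ j ih =>
    have h1 := doubling N (r := 2 ^ (j + 1) * r) (by positivity) (LL_finite hN _)
    have h2 : (2 : ℝ) ^ (j + 1) * r / 2 = 2 ^ j * r := by
      rw [pow_succ]
      ring
    rw [h2] at h1
    calc (LL N (2 ^ (j + 1) * r)).ncard ≤ (4 * d + 1) ^ d * (LL N (2 ^ j * r)).ncard := h1
      _ ≤ (4 * d + 1) ^ d * ((4 * d + 1) ^ (d * j) * (LL N r).ncard) := Nat.mul_le_mul_left _ ih
      _ = _ := by ring

/-- **The lift of a cell.** -/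
theorem lift {d : ℕ} {N : Seminorm ℝ (Fin d → ℝ)} {ψ : (Fin d → ℤ) →+ Γ} {H : AddSubgroup Γ}
    {n : ℕ} (hp : ∀ c : Fin d → ℤ, c ≠ 0 → N (cR c) ≤ 2 * n → ψ c ∉ H) {S : Set Γ} {z : Γ}
    (hS : ∀ a ∈ S, ∃ c ∈ LL N 1, ∃ h ∈ H, a = z + ψ c + h) :
    ∃ g : Γ → (Fin d → ℤ), IsAddFreimanHom n S Set.univ g ∧
      ∀ a ∈ S, g a ∈ LL N 1 ∧ a - z - ψ (g a) ∈ H := by
  have h1 : ∀ a ∈ S, ∃ c : Fin d → ℤ, c ∈ LL N 1 ∧ a - z - ψ c ∈ H := by
    intro a ha
    obtain ⟨c, hc, h, hh, e⟩ := hS a ha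
    refine ⟨c, hc, ?_⟩
    rw [e]
    have : z + ψ c + h - z - ψ c = h := by abel
    rw [this]
    exact hh
  choose! g hg1 hg2 using h1
  refine ⟨g, ⟨fun _ _ => Set.mem_univ _, ?_⟩, fun a ha => ⟨hg1 a ha, hg2 a ha⟩⟩
  have key : ∀ s : Multiset Γ, (∀ x ∈ s, x ∈ S) →
      N (cR (s.map g).sum) ≤ Multiset.card s ∧
        s.sum - (Multiset.card s) • z - ψ (s.map g).sum ∈ H := by
    intro s
    induction s using Multiset.induction_on with
    | empty =>
      intro _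
      have h0 : cR (0 : Fin d → ℤ) = 0 := by
        funext i
        simp [cR]
      simp [h0]
    | cons a s ih =>
      intro hs
      obtain ⟨i1, i2⟩ := ih fun x hx => hs x (Multiset.mem_cons_of_mem hx)
      have ha := hs a (Multiset.mem_cons_self a s)
      rw [Multiset.map_cons, Multiset.sum_cons, Multiset.sum_cons, Multiset.card_cons]
      constructor
      · rw [cR_add]
        have h2 : N (cR (g a)) ≤ 1 := hg1 a ha
        push_cast
        linarith [map_add_le_add N (cR (g a)) (cR (s.map g).sum)]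
      · have h2 : a + s.sum - (Multiset.card s + 1) • z - ψ (g a + (s.map g).sum) =
            (a - z - ψ (g a)) + (s.sum - (Multiset.card s) • z - ψ (s.map g).sum) := by
          rw [map_add, add_smul, one_smul]
          abel
        rw [h2]
        exact H.add_mem (hg2 a ha) i2
  intro s t hs ht hsn htn hst
  by_contra hne
  obtain ⟨a1, a2⟩ := key s fun x hx => hs hx
  obtain ⟨b1, b2⟩ := key t fun x hx => ht hx
  rw [hsn] at a1 a2
  rw [htn] at b1 b2
  refine hp ((s.map g).sum - (t.map g).sum) (sub_ne_zero.2 hne) ?_ ?_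
  · rw [cR_sub]
    have h2 := map_sub_le_add N (cR (s.map g).sum) (cR (t.map g).sum)
    linarith
  · have h2 : ψ ((s.map g).sum - (t.map g).sum) =
        (t.sum - n • z - ψ (t.map g).sum) - (s.sum - n • z - ψ (s.map g).sum) := by
      rw [map_sub, hst]
      abel
    rw [h2]
    exact H.sub_mem b2 a2

/-- **The lattice points in a subspace.** -/
theorem sub_body {m : ℕ} {N : Seminorm ℝ (Fin m → ℝ)} (hN : ∀ x, N x = 0 → x = 0)
    {D : Set (Fin m → ℤ)} (hD : D ⊆ LL N 2) :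
    ∃ (N₁ : Seminorm ℝ (Fin (Module.finrank ℤ (Submodule.span ℤ D)) → ℝ))
      (j : (Fin (Module.finrank ℤ (Submodule.span ℤ D)) → ℤ) →+ (Fin m → ℤ)),
      (∀ x, N₁ x = 0 → x = 0) ∧ Function.Injective j ∧ (∀ v ∈ D, ∃ c ∈ LL N₁ 1, j c = v) ∧
      (LL N₁ 1).ncard ≤ (LL N 3).ncard := by
  obtain ⟨L, hL⟩ : ∃ L, L = Submodule.span ℤ D := ⟨_, rfl⟩
  rw [← hL]
  have hfin : Module.Finite ℤ L := by
    rw [hL]
    exact Module.Finite.span_of_finite ℤ ((LL_finite hN 2).subset hD)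
  obtain ⟨n, hn⟩ : ∃ n, n = Module.finrank ℤ L := ⟨_, rfl⟩
  rw [← hn]
  let b : Module.Basis (Fin n) ℤ L := Module.finBasisOfFinrankEq ℤ L hn.symm
  let jl : (Fin n → ℤ) →ₗ[ℤ] (Fin m → ℤ) := L.subtype.comp b.equivFun.symm.toLinearMap
  have hjl : Function.Injective jl := Subtype.val_injective.comp b.equivFun.symm.injective
  let J : (Fin n → ℝ) →ₗ[ℝ] (Fin m → ℝ) :=
    Fintype.linearCombination ℝ fun i => cR (jl (Pi.single i 1))
  have hJ : ∀ x, J (cR x) = cR (jl x) := by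
    intro x
    have h1 : x = ∑ j, x j • (Pi.single j 1 : Fin n → ℤ) := by
      funext k
      simp [Finset.sum_apply, Pi.single_apply]
    have h2 : jl x = ∑ j, x j • jl (Pi.single j 1) := by
      conv_lhs => rw [h1]
      rw [map_sum]
      exact Finset.sum_congr rfl fun j _ => map_smul _ _ _
    rw [h2]
    show ∑ j, (cR x j) • cR (jl (Pi.single j 1)) = _
    funext k
    simp [cR, Finset.sum_apply]
  have hSfin : {c : Fin n → ℤ | jl c ∈ LL N 2}.Finite :=
    (LL_finite hN 2).preimage hjl.injOn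
  obtain ⟨R, hR⟩ := (hSfin.image fun c => ‖cR c‖).bddAbove
  obtain ⟨R', hR'⟩ : ∃ R', R' = max R 1 := ⟨_, rfl⟩
  have hR0 : 0 < R' := by rw [hR']; positivity
  let η : NNReal := ⟨1 / R', by positivity⟩
  let th : NNReal := ⟨1 / 3, by positivity⟩
  let N₁ : Seminorm ℝ (Fin n → ℝ) := th • (N.comp J + η • normSeminorm ℝ (Fin n → ℝ))
  have hN₁ : ∀ x, N₁ x = 1 / 3 * (N (J x) + 1 / R' * ‖x‖) := fun x => rfl
  refine ⟨N₁, jl.toAddMonoidHom, ?_, hjl, ?_, ?_⟩
  · intro x hx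
    rw [hN₁] at hx
    have h1 : 0 ≤ N (J x) := apply_nonneg N _
    have h2 : 0 ≤ 1 / R' * ‖x‖ := by positivity
    have h3 : 1 / R' * ‖x‖ = 0 := by linarith
    rcases mul_eq_zero.1 h3 with h | h
    · exact absurd h (by positivity)
    · exact norm_eq_zero.1 h
  · intro v hv
    have hvL : v ∈ L := by
      rw [hL]
      exact Submodule.subset_span hv
    have h1 : jl (b.equivFun ⟨v, hvL⟩) = v := by
      show ((b.equivFun.symm (b.equivFun ⟨v, hvL⟩) : L) : Fin m → ℤ) = v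
      rw [LinearEquiv.symm_apply_apply]
    refine ⟨b.equivFun ⟨v, hvL⟩, ?_, h1⟩
    rw [mem_LL, hN₁, hJ, h1]
    have h2 : N (cR v) ≤ 2 := hD hv
    have h3 : ‖cR (b.equivFun ⟨v, hvL⟩)‖ ≤ R' := by
      rw [hR']
      refine le_trans (hR ⟨b.equivFun ⟨v, hvL⟩, ?_, rfl⟩) (le_max_left _ _)
      show jl _ ∈ LL N 2
      rw [h1]
      exact hD hv
    have h4 : 1 / R' * ‖cR (b.equivFun ⟨v, hvL⟩)‖ ≤ 1 := by
      rw [one_div, inv_mul_le_iff₀ hR0, mul_one]
      exact h3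
    linarith
  · refine Set.ncard_le_ncard_of_injOn jl ?_ hjl.injOn (LL_finite hN 3)
    intro c hc
    rw [mem_LL, hN₁, hJ] at hc
    rw [mem_LL]
    have h2 : 0 ≤ 1 / R' * ‖cR c‖ := by positivity
    linarith

end Pool.Agent.Run7.h127.SN
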