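import Pool.Agent.H112R2.Final

/-!
# Norms of symmetric convex bodies and quotient norms
-/

set_option autoImplicit false

namespace Pool.Agent.Run7.h127.SN

open H112

/-- the norm of a symmetric convex body -/
theorem exists_norm {m : ℕ} {B : Set (Fin m → ℝ)} (hB : SymmBody B) :
    ∃ N : Seminorm ℝ (Fin m → ℝ), (∀ x, N x = 0 → x = 0) ∧ ∀ x, N x ≤ 1 ↔ x ∈ B := by
  obtain ⟨hc, hk, ⟨x₀, hx₀⟩, hs⟩ := hB
  have hneg : -x₀ ∈ interior B := by
    have h1 : -B = B := by
      ext y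
      rw [Set.mem_neg]
      constructor
      · intro hy
        have := hs _ hy
        rwa [neg_neg] at this
      · intro hy
        exact hs _ hy
    have h2 : interior (-B) = -interior B := by
      simpa using (Homeomorph.neg (Fin m → ℝ)).preimage_interior B |>.symm
    rw [h1] at h2
    rw [h2, Set.mem_neg, neg_neg]
    exact hx₀
  have h0 : (0 : Fin m → ℝ) ∈ interior B := by
    have h1 := hc.interior hx₀ hneg (a := 1 / 2) (b := 1 / 2) (by norm_num) (by norm_num)
      (by norm_num)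
    rwa [smul_neg, add_neg_cancel] at h1
  have hnhds : B ∈ nhds (0 : Fin m → ℝ) := mem_interior_iff_mem_nhds.1 h0
  have hbal : Balanced ℝ B := by
    intro a ha y hy
    obtain ⟨x, hx, rfl⟩ := hy
    rw [Real.norm_eq_abs, abs_le] at ha
    have h1 := hc hx (hs x hx) (a := (1 + a) / 2) (b := (1 - a) / 2) (by linarith) (by linarith)
      (by ring)
    have h2 : ((1 + a) / 2) • x + ((1 - a) / 2) • -x = a • x := by
      rw [smul_neg, ← sub_eq_add_neg, ← sub_smul]
      congr 1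
      ring
    rwa [h2] at h1
  have habs : Absorbent ℝ B := absorbent_nhds_zero hnhds
  refine ⟨gaugeSeminorm hbal hc habs, ?_, ?_⟩
  · intro x hx
    exact (gauge_eq_zero habs (NormedSpace.isVonNBounded_of_isBounded ℝ hk.isBounded)).1 hx
  · intro x
    have h1 := gauge_le_one_iff_mem_closure hc hnhds (x := x)
    rw [hk.isClosed.closure_eq] at h1
    exact h1

/-- the quotient norm -/
theorem quot_norm {m m' : ℕ} (N : Seminorm ℝ (Fin m → ℝ)) (hN : ∀ x, N x = 0 → x = 0)
    (L : (Fin m → ℝ) →ₗ[ℝ] (Fin m' → ℝ)) (hL : Function.Surjective L) :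
    ∃ N' : Seminorm ℝ (Fin m' → ℝ), (∀ x, N' x = 0 → x = 0) ∧
      ∀ r : ℝ, 0 ≤ r → ∀ y, N' y ≤ r ↔ ∃ x, L x = y ∧ N x ≤ r := by
  obtain ⟨hc, hk, ⟨x₀, hx₀⟩, hs⟩ := symmBody_ball N hN (r := 1) one_pos
  have hcont : Continuous L := L.continuous_of_finiteDimensional
  have hB : SymmBody (L '' {x | N x ≤ 1}) := by
    refine ⟨hc.linear_image L, hk.image hcont, ?_, ?_⟩
    · exact ⟨L x₀, (L.isOpenMap_of_finiteDimensional hL).image_interior_subset _
        (Set.mem_image_of_mem _ hx₀)⟩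
    · rintro _ ⟨x, hx, rfl⟩
      exact ⟨-x, hs x hx, map_neg L x⟩
  obtain ⟨N', hN', h1⟩ := exists_norm hB
  refine ⟨N', hN', fun r hr y => ?_⟩
  rcases hr.eq_or_lt with rfl | hr
  · constructor
    · intro h
      have h2 := hN' y (le_antisymm h (apply_nonneg N' y))
      exact ⟨0, by rw [map_zero, h2], by rw [map_zero]⟩
    · rintro ⟨x, rfl, hx⟩
      have h2 := hN x (le_antisymm hx (apply_nonneg N x))
      rw [h2, map_zero, map_zero]
  · have h2 : ∀ {k : ℕ} (M : Seminorm ℝ (Fin k → ℝ)) (x : Fin k → ℝ), M x ≤ r ↔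
        M (r⁻¹ • x) ≤ 1 := by
      intro k M x
      rw [map_smul_eq_mul, Real.norm_of_nonneg (by positivity), inv_mul_le_iff₀ hr, mul_one]
    rw [h2, h1]
    constructor
    · rintro ⟨x, hx, hxy⟩
      refine ⟨r • x, ?_, ?_⟩
      · rw [map_smul, hxy, smul_smul, mul_inv_cancel₀ hr.ne', one_smul]
      · rw [h2, smul_smul, inv_mul_cancel₀ hr.ne', one_smul]
        exact hx
    · rintro ⟨x, rfl, hx⟩
      exact ⟨r⁻¹ • x, (h2 N x).1 hx, map_smul L _ _⟩

end Pool.Agent.Run7.h127.SN
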