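import Pool.Agent.Run7.h127.SN.Step

/-!
# Making a convex coset progression proper
-/

set_option autoImplicit false

namespace Pool.Agent.Run7.h127.SN

open H112

variable {Γ : Type*} [AddCommGroup Γ]

lemma mem_LL {d : ℕ} {N : Seminorm ℝ (Fin d → ℝ)} {r : ℝ} {c : Fin d → ℤ} :
    c ∈ LL N r ↔ N (cR c) ≤ r := Iff.rfl

lemma LL_mono {d : ℕ} {N : Seminorm ℝ (Fin d → ℝ)} {r r' : ℝ} (h : r ≤ r') :
    LL N r ⊆ LL N r' := fun _ hc => le_trans hc h

/-- balls contain finitely many lattice points -/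
theorem LL_finite {d : ℕ} {N : Seminorm ℝ (Fin d → ℝ)} (hN : ∀ x, N x = 0 → x = 0) (r : ℝ) :
    (LL N r).Finite := by
  have h1 := (symmBody_ball N hN (r := max r 1) (by positivity)).2.1
  obtain ⟨C, hC⟩ := isBounded_iff_forall_norm_le.1 h1.isBounded
  refine Set.Finite.subset (Set.Finite.pi' (ι := Fin d)
    (t := fun _ => (Finset.Icc (-⌈C⌉) ⌈C⌉ : Set ℤ)) fun _ => Finset.finite_toSet _) ?_
  intro c hc i
  have h2 : cR c ∈ {x | N x ≤ max r 1} := by
    show N (cR c) ≤ max r 1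
    exact le_trans hc (le_max_left _ _)
  have h3 := (norm_le_pi_norm (cR c) i).trans (hC _ h2)
  rw [Real.norm_eq_abs] at h3
  have h4 : |(c i : ℝ)| ≤ (⌈C⌉ : ℝ) := h3.trans (Int.le_ceil C)
  rw [Finset.coe_Icc, Set.mem_Icc]
  have h5 := abs_le.1 h4
  constructor
  · exact_mod_cast h5.1
  · exact_mod_cast h5.2

/-- one step -/
theorem step {d : ℕ} (N : Seminorm ℝ (Fin (d + 1) → ℝ)) (hN : ∀ x, N x = 0 → x = 0)
    (ψ : (Fin (d + 1) → ℤ) →+ Γ) (H : AddSubgroup Γ) (hH : Finite H) {t : ℝ}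
    {v : Fin (d + 1) → ℤ} (hv : v ≠ 0) (hvt : N (cR v) ≤ t) (hvH : ψ v ∈ H) :
    ∃ (N' : Seminorm ℝ (Fin d → ℝ)) (ψ' : (Fin d → ℤ) →+ Γ) (H' : AddSubgroup Γ),
      (∀ x, N' x = 0 → x = 0) ∧ Finite H' ∧
      (∀ r, 0 ≤ r → ∀ c ∈ LL N r, ∀ h ∈ H, ∃ c' ∈ LL N' r, ∃ h' ∈ H', ψ c + h = ψ' c' + h') ∧
      (∀ r, 0 ≤ r → (LL N' r).ncard * Nat.card H' ≤ (LL N (r + t)).ncard * Nat.card H) := by
  obtain ⟨l, M, σ, L, ⟨n, hn0, hn⟩, hσ, hker, hMl, hLM, hLs, hLk⟩ := quot_line hv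
  obtain ⟨N', hN', hNN⟩ := quot_norm N hN L hLs
  obtain ⟨H', hH'⟩ : ∃ H', H' = H ⊔ AddSubgroup.zmultiples (ψ l) := ⟨_, rfl⟩
  have hnl : n • ψ l ∈ H := by
    rw [← map_zsmul, ← hn]
    exact hvH
  have hdec : ∀ h' ∈ H', ∃ m : ℤ, h' - m • ψ l ∈ H := by
    intro h' hh
    rw [hH', AddSubgroup.mem_sup] at hh
    obtain ⟨y, hy, z, hz, rfl⟩ := hh
    obtain ⟨m, rfl⟩ := AddSubgroup.mem_zmultiples_iff.1 hz
    exact ⟨m, by rwa [add_sub_cancel_right]⟩
  have hfin' : Finite H' := by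
    have h0 : (H : Set Γ).Finite := Set.toFinite _
    have h1 : (H' : Set Γ) ⊆ (fun p : ℤ × Γ => p.1 • ψ l + p.2) ''
        ((Finset.Icc 0 |n| : Set ℤ) ×ˢ (H : Set Γ)) := by
      intro h' hh
      obtain ⟨m, hm⟩ := hdec h' hh
      refine ⟨(m % n, h' - (m % n) • ψ l), ⟨?_, ?_⟩, by simp⟩
      · rw [Finset.coe_Icc, Set.mem_Icc]
        exact ⟨Int.emod_nonneg m hn0, (Int.emod_lt m hn0).le.trans (le_of_eq (Int.natCast_natAbs n))⟩
      · have h2 : h' - (m % n) • ψ l = (h' - m • ψ l) + (m / n) • (n • ψ l) := by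
          have h3 : m • ψ l = (m % n) • ψ l + (m / n) • (n • ψ l) := by
            rw [← mul_smul, ← add_smul, mul_comm (m / n) n, Int.emod_add_mul_ediv]
          rw [h3]
          abel
        show h' - (m % n) • ψ l ∈ (H : Set Γ)
        rw [h2]
        exact H.add_mem hm (H.zsmul_mem hnl _)
    exact (Set.Finite.subset (Set.Finite.image _
      ((Finset.finite_toSet (Finset.Icc 0 |n|)).prod h0)) h1).to_subtype
  have hlH' : ∀ m : ℤ, m • ψ l ∈ H' := by
    intro m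
    rw [hH']
    exact (le_sup_right : AddSubgroup.zmultiples (ψ l) ≤ _)
      (AddSubgroup.zsmul_mem _ (AddSubgroup.mem_zmultiples _) _)
  have hHH' : H ≤ H' := by
    rw [hH']
    exact le_sup_left
  refine ⟨N', ψ.comp σ, H', hN', hfin', ?_, ?_⟩
  · intro r hr c hc h hh
    refine ⟨M c, ?_, ?_⟩
    · rw [mem_LL, ← hLM, hNN r hr]
      exact ⟨cR c, rfl, hc⟩
    · obtain ⟨m, hm⟩ := hker (c - σ (M c)) (by rw [map_sub, hσ, sub_self])
      refine ⟨m • ψ l + h, H'.add_mem (hlH' m) (hHH' hh), ?_⟩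
      have h1 : c = σ (M c) + m • l := by rw [← hm]; abel
      have h2 : ψ c = ψ (σ (M c)) + m • ψ l := by
        conv_lhs => rw [h1]
        rw [map_add, map_zsmul]
      rw [h2, AddMonoidHom.comp_apply]
      abel
  · intro r hr
    have key : ∀ c ∈ LL N' r, ∀ h' ∈ H', ∃ m : ℤ, σ c + m • l ∈ LL N (r + t) ∧
        h' - m • ψ l ∈ H := by
      intro c hc h' hh
      obtain ⟨m, hm⟩ := hdec h' hh
      obtain ⟨y, hy, hyr⟩ := (hNN r hr (cR c)).1 hc
      obtain ⟨s, hs⟩ := hLk (y - cR (σ c)) (by rw [map_sub, hy, hLM, hσ, sub_self])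
      obtain ⟨k, hk⟩ : ∃ k : ℤ, |(m + n * k : ℝ) - s| ≤ |(n : ℝ)| := by
        have hn' : (n : ℝ) ≠ 0 := by exact_mod_cast hn0
        refine ⟨round ((s - m) / n), ?_⟩
        have h1 := abs_sub_round ((s - m) / n : ℝ)
        have h2 : (m + n * (round ((s - m) / n : ℝ)) : ℝ) - s =
            -(n * ((s - m) / n - (round ((s - m) / n : ℝ) : ℝ))) := by
          field_simp
          ring
        rw [h2, abs_neg, abs_mul]
        have h3 : |(n : ℝ)| * |(s - m) / n - (round ((s - m) / n : ℝ) : ℝ)| ≤ |(n : ℝ)| * (1 / 2) :=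
          mul_le_mul_of_nonneg_left h1 (abs_nonneg _)
        have h4 := abs_nonneg (n : ℝ)
        linarith
      refine ⟨m + n * k, ?_, ?_⟩
      · rw [mem_LL, cR_add, cR_zsmul]
        have h1 : cR (σ c) + ((m + n * k : ℤ) : ℝ) • cR l =
            y + ((m + n * k : ℝ) - s) • cR l := by
          have h2 : y = cR (σ c) + s • cR l := by rw [← hs]; abel
          rw [h2, sub_smul]
          push_cast
          abel
        rw [h1]
        refine (map_add_le_add N _ _).trans (add_le_add hyr ?_)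
        rw [map_smul_eq_mul, Real.norm_eq_abs]
        refine (mul_le_mul_of_nonneg_right hk (apply_nonneg N _)).trans ?_
        have h3 : N (cR v) = |(n : ℝ)| * N (cR l) := by
          rw [hn, cR_zsmul, map_smul_eq_mul, Real.norm_eq_abs]
        rw [← h3]
        exact hvt
      · have h1 : h' - (m + n * k) • ψ l = (h' - m • ψ l) - k • (n • ψ l) := by
          rw [add_smul, mul_comm n k, mul_smul]
          abel
        rw [h1]
        exact H.sub_mem hm (H.zsmul_mem hnl k)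
    choose! f hf1 hf2 using key
    have hfinr : Finite (LL N (r + t)) := LL_finite hN _
    have hfinr' : Finite (LL N' r) := LL_finite hN' _
    let F : LL N' r × H' → LL N (r + t) × H := fun p =>
      (⟨σ p.1.1 + f p.1.1 p.2.1 • l, hf1 _ p.1.2 _ p.2.2⟩,
        ⟨p.2.1 - f p.1.1 p.2.1 • ψ l, hf2 _ p.1.2 _ p.2.2⟩)
    have hF : Function.Injective F := by
      rintro ⟨⟨c, hc⟩, ⟨h, hh⟩⟩ ⟨⟨c', hc'⟩, ⟨h', hh'⟩⟩ he
      have e1 : σ c + f c h • l = σ c' + f c' h' • l :=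
        congrArg Subtype.val (congrArg Prod.fst he)
      have e2 : h - f c h • ψ l = h' - f c' h' • ψ l :=
        congrArg Subtype.val (congrArg Prod.snd he)
      have e3 : c = c' := by
        have h1 := congrArg M e1
        rwa [map_add, map_add, hσ, hσ, hMl, hMl, add_zero, add_zero] at h1
      subst e3
      have e4 : f c h • l = f c h' • l := add_left_cancel e1
      have e5 : f c h • ψ l = f c h' • ψ l := by
        rw [← map_zsmul, e4, map_zsmul]
      rw [e5] at e2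
      have e6 : h = h' := sub_left_injective e2
      subst e6
      rfl
    have h1 := Nat.card_le_card_of_injective F hF
    rw [Nat.card_prod, Nat.card_prod] at h1
    exact h1

/-- **Properization.** -/
theorem proper {t : ℝ} (ht : 0 ≤ t) : ∀ (d : ℕ) (N : Seminorm ℝ (Fin d → ℝ)),
    (∀ x, N x = 0 → x = 0) → ∀ (ψ : (Fin d → ℤ) →+ Γ) (H : AddSubgroup Γ), Finite H →
    ∃ (d' : ℕ) (N' : Seminorm ℝ (Fin d' → ℝ)) (ψ' : (Fin d' → ℤ) →+ Γ) (H' : AddSubgroup Γ),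
      d' ≤ d ∧ (∀ x, N' x = 0 → x = 0) ∧ Finite H' ∧
      (∀ c : Fin d' → ℤ, c ≠ 0 → N' (cR c) ≤ t → ψ' c ∉ H') ∧
      (∀ r, 0 ≤ r → ∀ c ∈ LL N r, ∀ h ∈ H, ∃ c' ∈ LL N' r, ∃ h' ∈ H', ψ c + h = ψ' c' + h') ∧
      (∀ r, 0 ≤ r → (LL N' r).ncard * Nat.card H' ≤ (LL N (r + d * t)).ncard * Nat.card H) := by
  intro d
  induction d with
  | zero =>
    intro N hN ψ H hH
    refine ⟨0, N, ψ, H, le_rfl, hN, hH, ?_, ?_, ?_⟩
    · intro c hc
      exact absurd (Subsingleton.elim c 0) hc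
    · intro r _ c hc h hh
      exact ⟨c, hc, h, hh, rfl⟩
    · intro r _
      rw [Nat.cast_zero, zero_mul, add_zero]
  | succ d ih =>
    intro N hN ψ H hH
    by_cases hp : ∀ c : Fin (d + 1) → ℤ, c ≠ 0 → N (cR c) ≤ t → ψ c ∉ H
    · refine ⟨d + 1, N, ψ, H, le_rfl, hN, hH, hp, ?_, ?_⟩
      · intro r _ c hc h hh
        exact ⟨c, hc, h, hh, rfl⟩
      · intro r _
        refine Nat.mul_le_mul_right _ (Set.ncard_le_ncard (LL_mono ?_) (LL_finite hN _))
        have : 0 ≤ ((d + 1 : ℕ) : ℝ) * t := by positivity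
        linarith
    · push Not at hp
      obtain ⟨v, hv, hvt, hvH⟩ := hp
      obtain ⟨N₁, ψ₁, H₁, hN₁, hH₁, hc₁, hn₁⟩ := step N hN ψ H hH hv hvt hvH
      obtain ⟨d', N', ψ', H', hd, hN', hH', hp', hc', hn'⟩ := ih N₁ hN₁ ψ₁ H₁ hH₁
      refine ⟨d', N', ψ', H', by omega, hN', hH', hp', ?_, ?_⟩
      · intro r hr c hc h hh
        obtain ⟨c1, hc1, h1, hh1, e1⟩ := hc₁ r hr c hc h hh
        obtain ⟨c2, hc2, h2, hh2, e2⟩ := hc' r hr c1 hc1 h1 hh1
        exact ⟨c2, hc2, h2, hh2, e1.trans e2⟩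
      · intro r hr
        have hdt : 0 ≤ (d : ℝ) * t := by positivity
        have h1 := hn₁ (r + d * t) (by linarith)
        have h2 : r + d * t + t = r + ((d + 1 : ℕ) : ℝ) * t := by
          push_cast
          ring
        rw [h2] at h1
        exact (hn' r hr).trans h1

end Pool.Agent.Run7.h127.SN
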