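import Pool.Agent.Run7.h127.SN.Final

/-!
# Freiman–Ruzsa with sharp dimension in torsion-free groups
-/

set_option autoImplicit false
set_option linter.unusedSectionVars false

namespace Pool.Agent.Run7.h127.SN

open H112 Finset
open scoped Pointwise

lemma cR_zero {d : ℕ} : cR (0 : Fin d → ℤ) = 0 := by
  funext i
  simp [cR]

/-- **Smaller balls.** -/
theorem shrink {m : ℕ} {N : Seminorm ℝ (Fin m → ℝ)} (hN : ∀ x, N x = 0 → x = 0) {a : ℕ}
    (ha : 1 ≤ a) {R : ℝ} (hR1 : 1 ≤ R) (hR : ((LL N 1).ncard : ℝ) ≤ R * a) :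
    ∃ (r : ℝ) (Y : Finset (Fin m → ℤ)), 0 < r ∧ (LL N r).ncard ≤ a ∧
      (Y.card : ℝ) ≤ (4 * m + 1) ^ (3 * m) * R ∧ ∀ c ∈ LL N 1, ∃ y ∈ Y, c - y ∈ LL N r := by
  classical
  have hex : ∃ j : ℕ, (LL N (1 / 2 ^ j)).ncard ≤ a := by
    have hpos : ∀ c ∈ LL N 1, c ≠ 0 → 0 < N (cR c) := by
      intro c _ hc0
      refine lt_of_le_of_ne (apply_nonneg N _) fun h => hc0 ?_
      have := hN _ h.symm
      exact cR_inj (this.trans cR_zero.symm)
    obtain ⟨ε, hε, hεmin⟩ : ∃ ε : ℝ, 0 < ε ∧ ∀ c ∈ LL N 1, c ≠ 0 → ε ≤ N (cR c) := by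
      set F := ((LL_finite hN 1).toFinset.erase 0).image (fun c => N (cR c)) with hF
      rcases F.eq_empty_or_nonempty with hemp | hne
      · refine ⟨1, one_pos, fun c hc hc0 => ?_⟩
        exfalso
        have : N (cR c) ∈ F := by
          rw [hF, Finset.mem_image]
          exact ⟨c, by simp [hc0, hc], rfl⟩
        rw [hemp] at this
        simp at this
      · refine ⟨F.min' hne, ?_, fun c hc hc0 => ?_⟩
        · obtain ⟨c, hc, hceq⟩ := Finset.mem_image.1 (F.min'_mem hne)
          simp only [Finset.mem_erase, Set.Finite.mem_toFinset] at hc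
          rw [← hceq]
          exact hpos c hc.2 hc.1
        · apply Finset.min'_le
          rw [hF, Finset.mem_image]
          exact ⟨c, by simp [hc0, hc], rfl⟩
    obtain ⟨j, hj⟩ := exists_pow_lt_of_lt_one hε (by norm_num : (1 / 2 : ℝ) < 1)
    refine ⟨j, ?_⟩
    have hle : (1 : ℝ) / 2 ^ j ≤ 1 := div_le_self zero_le_one (one_le_pow₀ (by norm_num))
    have hsub : LL N (1 / 2 ^ j) ⊆ {0} := by
      intro c hc
      by_contra hc0
      simp only [Set.mem_singleton_iff] at hc0
      have hc' : N (cR c) ≤ 1 / 2 ^ j := hc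
      have h3 := hεmin c (hc'.trans hle) hc0
      have h4 : (1 : ℝ) / 2 ^ j < ε := by
        rw [← one_div_pow]
        exact hj
      linarith
    have h5 := Set.ncard_le_ncard hsub (Set.finite_singleton _)
    rw [Set.ncard_singleton] at h5
    omega
  set j := Nat.find hex with hj
  have hjspec : (LL N (1 / 2 ^ j)).ncard ≤ a := Nat.find_spec hex
  have hjmin : ∀ i < j, a < (LL N (1 / 2 ^ i)).ncard := by
    intro i hi
    have := Nat.find_min hex hi
    omega
  have hbase : (1 : ℝ) ≤ (4 * m + 1) ^ (3 * m) := one_le_pow₀ (by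
    have : (0 : ℝ) ≤ m := by positivity
    linarith)
  rcases Nat.eq_zero_or_pos j with hj0 | hjpos
  · refine ⟨1 / 2 ^ j, {0}, by positivity, hjspec, ?_, fun c hc => ⟨0, by simp, ?_⟩⟩
    · rw [card_singleton, Nat.cast_one]
      calc (1 : ℝ) = 1 * 1 := by norm_num
        _ ≤ _ := mul_le_mul hbase hR1 zero_le_one (by positivity)
    · rw [sub_zero, hj0, pow_zero, div_one]
      exact hc
  · obtain ⟨r, hr⟩ : ∃ r : ℝ, r = 1 / 2 ^ j := ⟨_, rfl⟩
    rw [← hr] at hjspec
    have hr0 : 0 < r := by rw [hr]; positivity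
    obtain ⟨i, hi⟩ : ∃ i, j = i + 1 := ⟨j - 1, by omega⟩
    have h2r : (1 : ℝ) / 2 ^ i = 2 * r := by
      rw [hr, hi, pow_succ]
      field_simp
    have hr2 : 2 * r ≤ 1 := by
      rw [← h2r]
      exact div_le_self zero_le_one (one_le_pow₀ (by norm_num))
    have hbig := hjmin i (by omega)
    rw [h2r] at hbig
    have hd1 := LL_dbl hN (r := r / 2) (by positivity) 2
    have e1 : (2 : ℝ) ^ 2 * (r / 2) = 2 * r := by ring
    rw [e1] at hd1
    have hd2 := LL_dbl hN (r := 1) zero_le_one 1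
    have e2 : (2 : ℝ) ^ 1 * 1 = 2 := by norm_num
    rw [e2] at hd2
    have hP : (LL_finite hN (r / 2)).toFinset.Nonempty := by
      refine ⟨0, ?_⟩
      rw [Set.Finite.mem_toFinset, mem_LL, cR_zero, map_zero]
      positivity
    have c1 : (LL_finite hN (r / 2)).toFinset.card = (LL N (r / 2)).ncard :=
      (Set.ncard_eq_toFinset_card _ _).symm
    have c2 : (LL_finite hN 2).toFinset.card = (LL N 2).ncard :=
      (Set.ncard_eq_toFinset_card _ _).symm
    have hadd : (((LL_finite hN 1).toFinset + (LL_finite hN (r / 2)).toFinset).card : ℝ) ≤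
        ((4 * m + 1) ^ (3 * m) * R) * (LL_finite hN (r / 2)).toFinset.card := by
      have hsub : (LL_finite hN 1).toFinset + (LL_finite hN (r / 2)).toFinset ⊆
          (LL_finite hN 2).toFinset := by
        intro x hx
        obtain ⟨u, hu, v, hv, rfl⟩ := Finset.mem_add.1 hx
        rw [Set.Finite.mem_toFinset, mem_LL] at hu hv ⊢
        rw [cR_add]
        linarith [map_add_le_add N (cR u) (cR v)]
      have h1 : (((LL_finite hN 1).toFinset + (LL_finite hN (r / 2)).toFinset).card : ℝ) ≤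
          (LL N 2).ncard := by
        rw [← c2]
        exact_mod_cast card_le_card hsub
      have h2 : ((LL N 2).ncard : ℝ) ≤ (4 * m + 1) ^ (m * 1) * (LL N 1).ncard := by
        exact_mod_cast hd2
      have h3 : (a : ℝ) ≤ (4 * m + 1) ^ (m * 2) * (LL N (r / 2)).ncard := by
        exact_mod_cast hbig.le.trans hd1
      rw [c1]
      calc (((LL_finite hN 1).toFinset + (LL_finite hN (r / 2)).toFinset).card : ℝ)
          ≤ (4 * m + 1) ^ (m * 1) * (LL N 1).ncard := h1.trans h2
        _ ≤ (4 * m + 1) ^ (m * 1) * (R * a) := mul_le_mul_of_nonneg_left hR (by positivity)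
        _ ≤ (4 * m + 1) ^ (m * 1) * (R * ((4 * m + 1) ^ (m * 2) * (LL N (r / 2)).ncard)) :=
          mul_le_mul_of_nonneg_left (mul_le_mul_of_nonneg_left h3 (by linarith)) (by positivity)
        _ = _ := by
          rw [show 3 * m = m * 1 + m * 2 by ring, pow_add]
          ring
    obtain ⟨Y, _, hYc, hcov⟩ := Finset.ruzsa_covering_add hP hadd
    refine ⟨r, Y, hr0, hjspec, hYc, fun c hc => ?_⟩
    have hc' : c ∈ (LL_finite hN 1).toFinset := by rw [Set.Finite.mem_toFinset]; exact hc
    obtain ⟨y, hy, w, hw, rfl⟩ := Finset.mem_add.1 (hcov hc')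
    obtain ⟨p, hp, p', hp', rfl⟩ := Finset.mem_sub.1 hw
    rw [Set.Finite.mem_toFinset, mem_LL] at hp hp'
    refine ⟨y, hy, ?_⟩
    rw [add_sub_cancel_left, mem_LL, cR_sub]
    linarith [map_sub_le_add N (cR p) (cR p')]

variable {Γ : Type*} [AddCommGroup Γ] [DecidableEq Γ]

/-- **Torsion-free groups.** -/
theorem torsion_free [IsAddTorsionFree Γ] {A : Finset Γ}
    (hA : A.Nonempty) {K : ℝ} (hK : ((A + A).card : ℝ) ≤ K * A.card)
    {ε : ℝ} (hε : 0 < ε) (hε1 : ε ≤ 1) :
    ∃ (d : ℕ) (B : Set (Fin d → ℝ)) (ψ : (Fin d → ℤ) →+ Γ) (T : Finset Γ),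
      (d : ℝ) * Real.log 2 ≤ (1 + ε) * Real.log K ∧ SymmBody B ∧
      {c : Fin d → ℤ | (fun i => (c i : ℝ)) ∈ B}.ncard ≤ A.card ∧
      (T.card : ℝ) ≤ (2 * K) ^ (10 ^ 23 * (1 + Real.log (1 + Real.log (2 * K))) ^ 2 / ε ^ 4) ∧
      ∀ a ∈ A, ∃ t ∈ T, ∃ c : Fin d → ℤ, (fun i => (c i : ℝ)) ∈ B ∧ a = t + ψ c := by
  classical
  have hN : (0 : ℝ) < A.card := by exact_mod_cast card_pos.2 hA
  have hK1 : 1 ≤ K := by
    have h1 : (A.card : ℝ) ≤ (A + A).card := by exact_mod_cast card_le_card_add_left hA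
    have h2 : 1 * (A.card : ℝ) ≤ K * A.card := by linarith
    exact le_of_mul_le_mul_right h2 hN
  have hK0 : 0 < K := by linarith
  obtain ⟨lam, hlam⟩ : ∃ lam, lam = 1 + Real.log (1 + Real.log (2 * K)) := ⟨_, rfl⟩
  obtain ⟨κ, hκ⟩ : ∃ κ, κ = Real.log (2 * K) := ⟨_, rfl⟩
  have hlam' : lam = 1 + Real.log (1 + κ) := by rw [hlam, hκ]
  have hlog2 : 0 < Real.log 2 := Real.log_pos (by norm_num)
  have hlogK : 0 ≤ Real.log K := Real.log_nonneg hK1
  have hκ' : κ = Real.log 2 + Real.log K := by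
    rw [hκ, Real.log_mul (by norm_num) hK0.ne']
  have hκ69 : (0.69 : ℝ) < κ := by
    have := log_two_gt
    linarith
  have hκ0 : 0 < κ := by linarith
  have hlam1 : 1 ≤ lam := by
    rw [hlam']
    have : 0 ≤ Real.log (1 + κ) := Real.log_nonneg (by linarith)
    linarith
  rw [← hlam]
  rcases Nat.lt_or_ge 1 A.card with hA2 | hA2
  · -- at least two elements: `K ≥ 3 / 2`
    have hK32 : 3 / 2 ≤ K := by
      have h1 : 2 * A.card ≤ (A + A).card + 1 := by
        have := cauchy_davenport_of_isAddTorsionFree hA hA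
        omega
      have h2 : 2 * (A.card : ℝ) ≤ (A + A).card + 1 := by exact_mod_cast h1
      have h3 : (2 : ℝ) ≤ A.card := by exact_mod_cast hA2
      have h4 : 3 / 2 * (A.card : ℝ) ≤ K * A.card := by linarith
      exact le_of_mul_le_mul_right h4 hN
    obtain ⟨d, N, ψ, H, F, hNd, hH, hdim, hsize, hFA, hF, hcov⟩ := core
      (fun a b hab => nsmul_right_injective (M := Γ) (two_ne_zero) hab) hA hK
      (ε := ε / 3) (by positivity) (by linarith)
    obtain ⟨E, hE⟩ : ∃ E, E = ex K (ε / 3) := ⟨_, rfl⟩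
    have hE' : E = 81 * (10 ^ 20 * lam ^ 2 / ε ^ 4) := by
      rw [hE, ex, ← hlam]
      field_simp
      ring
    rw [← hE] at hsize hF
    have hE0 : 0 ≤ E := by rw [hE']; positivity
    have hHbot : ∀ h ∈ H, h = 0 := by
      intro h hh
      have h1 : Nat.card H • (⟨h, hh⟩ : H) = 0 := card_nsmul_eq_zero'
      have h2 : Nat.card H • h = 0 := by
        have h3 := congrArg H.subtype h1
        rw [map_nsmul, map_zero] at h3
        exact h3
      exact (smul_eq_zero_iff_right (Nat.card_pos.ne' : Nat.card H ≠ 0)).1 h2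
    have hHcard : Nat.card H = 1 := by
      rw [Nat.card_eq_one_iff_unique]
      refine ⟨⟨fun a b => Subtype.ext ?_⟩, ⟨0⟩⟩
      rw [hHbot a.1 a.2, hHbot b.1 b.2]
    rw [hHcard, mul_one] at hsize
    have h2K : 1 ≤ (2 * K) ^ E := Real.one_le_rpow (by linarith) hE0
    obtain ⟨r, Y, hr0, hrc, hYc, hY⟩ := shrink hNd (card_pos.2 hA) h2K hsize
    have hd300 : (d : ℝ) ≤ 300 * κ := by
      have h1 : (d : ℝ) * Real.log 2 ≤ 3 * κ := by
        have h2 : (1 + ε / 3) * Real.log K ≤ 2 * Real.log K :=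
          mul_le_mul_of_nonneg_right (by linarith) hlogK
        have h3 : ε / 3 * Real.log 2 ≤ 1 * Real.log 2 :=
          mul_le_mul_of_nonneg_right (by linarith) hlog2.le
        linarith
      have h4 := log_two_gt
      have h5 : (d : ℝ) * 0.69 ≤ d * Real.log 2 := mul_le_mul_of_nonneg_left h4.le (by positivity)
      linarith
    refine ⟨d, {x | N x ≤ r}, ψ, F + Y.image ψ, ?_, symmBody_ball N hNd hr0, hrc, ?_, ?_⟩
    · -- dimension
      have h1 : Real.log 2 ≤ 2 * Real.log K := by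
        have h2 : (2 : ℝ) ≤ K ^ 2 := by nlinarith
        have h3 := Real.log_le_log (by norm_num) h2
        rw [Real.log_pow] at h3
        exact_mod_cast h3
      have h4 : ε / 3 * Real.log 2 ≤ ε / 3 * (2 * Real.log K) :=
        mul_le_mul_of_nonneg_left h1 (by positivity)
      have h5 : (1 + ε / 3) * Real.log K + ε / 3 * (2 * Real.log K) = (1 + ε) * Real.log K := by
        ring
      linarith
    · have h1 : ((F + Y.image ψ).card : ℝ) ≤ F.card * Y.card := by
        exact_mod_cast card_add_le.trans (Nat.mul_le_mul_left _ card_image_le)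
      have h3 : Real.log (4 * d + 1) ≤ 8 * lam := by
        rw [hlam']
        exact log_4m_le hκ69 hd300
      have h4 := pow_le_exp (x := 4 * (d : ℝ) + 1) (n := 3 * d) (c := 900 * κ) (by positivity) h3
        (by push_cast; linarith) (by positivity)
      have h5 : Real.exp (900 * κ * (8 * lam)) = (2 * K) ^ (7200 * lam) := by
        rw [Real.rpow_def_of_pos (by positivity), ← hκ]
        congr 1
        ring
      rw [h5] at h4
      calc ((F + Y.image ψ).card : ℝ) ≤ F.card * Y.card := h1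
        _ ≤ (2 * K) ^ E * ((2 * K) ^ (7200 * lam) * (2 * K) ^ E) := by
          refine mul_le_mul hF (hYc.trans ?_) (by positivity) (by positivity)
          exact mul_le_mul_of_nonneg_right h4 (by positivity)
        _ = (2 * K) ^ (E + (7200 * lam + E)) := by
          rw [Real.rpow_add (by positivity), Real.rpow_add (by positivity)]
        _ ≤ _ := by
          refine Real.rpow_le_rpow_of_exponent_le (by linarith) ?_
          have h6 : lam ≤ lam ^ 2 / ε ^ 4 := by
            rw [le_div_iff₀ (by positivity)]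
            have h7 : ε ^ 4 ≤ 1 := pow_le_one₀ hε.le hε1
            calc lam * ε ^ 4 ≤ lam * 1 := mul_le_mul_of_nonneg_left h7 (by positivity)
              _ ≤ lam * lam := mul_le_mul_of_nonneg_left hlam1 (by positivity)
              _ = lam ^ 2 := by ring
          have h8 : E = (81 * 10 ^ 20) * (lam ^ 2 / ε ^ 4) := by
            rw [hE']
            ring
          have h9 : 10 ^ 23 * lam ^ 2 / ε ^ 4 = 10 ^ 23 * (lam ^ 2 / ε ^ 4) := by ring
          rw [h8, h9]
          linarith
    · intro a ha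
      obtain ⟨f, hf, c, hc, h, hh, rfl⟩ := hcov a ha
      obtain ⟨y, hy, hyc⟩ := hY c hc
      refine ⟨f + ψ y, add_mem_add hf (mem_image_of_mem ψ hy), c - y, hyc, ?_⟩
      rw [hHbot h hh, map_sub]
      abel
  · -- one element
    obtain ⟨a, rfl⟩ : ∃ a, A = {a} := card_eq_one.1 (le_antisymm hA2 (card_pos.2 hA))
    refine ⟨0, Set.univ, 0, {a}, ?_, ?_, ?_, ?_, ?_⟩
    · rw [Nat.cast_zero, zero_mul]
      positivity
    · refine ⟨convex_univ, isCompact_univ, ?_, fun _ _ => Set.mem_univ _⟩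
      rw [interior_univ]
      exact Set.univ_nonempty
    · rw [card_singleton]
      refine (Set.ncard_le_one (Set.toFinite _)).2 ?_
      intro x _ y _
      exact Subsingleton.elim x y
    · rw [card_singleton, Nat.cast_one]
      exact Real.one_le_rpow (by linarith) (by positivity)
    · intro b hb
      rw [mem_singleton] at hb
      exact ⟨a, mem_singleton_self a, 0, Set.mem_univ _, by rw [hb]; simp⟩

end Pool.Agent.Run7.h127.SN
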