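import Pool.Agent.Run7.h127.SN.Norm

/-!
# Killing one kernel vector of a convex coset progression
-/

set_option autoImplicit false

namespace Pool.Agent.Run7.h127.SN

open H112

/-- the real vector of an integer vector -/
def cR {d : ℕ} (c : Fin d → ℤ) : Fin d → ℝ := fun i => (c i : ℝ)

lemma cR_add {d : ℕ} (c c' : Fin d → ℤ) : cR (c + c') = cR c + cR c' := by
  funext i
  simp [cR]

lemma cR_sub {d : ℕ} (c c' : Fin d → ℤ) : cR (c - c') = cR c - cR c' := by
  funext i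
  simp [cR]

lemma cR_zsmul {d : ℕ} (n : ℤ) (c : Fin d → ℤ) : cR (n • c) = (n : ℝ) • cR c := by
  funext i
  simp [cR]

lemma cR_inj {d : ℕ} {c c' : Fin d → ℤ} (h : cR c = cR c') : c = c' := by
  funext i
  have h1 := congrFun h i
  simp only [cR] at h1
  exact_mod_cast h1

/-- the integer points of a real line are the multiples of one vector -/
theorem line_points {d : ℕ} {v : Fin d → ℤ} (hv : v ≠ 0) :
    ∃ l : Fin d → ℤ, l ≠ 0 ∧ (∃ n : ℤ, v = n • l) ∧
      ∀ x : Fin d → ℤ, (∃ s : ℝ, cR x = s • cR v) → ∃ n : ℤ, x = n • l := by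
  obtain ⟨i, hi⟩ : ∃ i, v i ≠ 0 := by
    by_contra h
    push Not at h
    exact hv (funext h)
  let S : Submodule ℤ (Fin d → ℤ) :=
    { carrier := {x | ∃ s : ℝ, cR x = s • cR v}
      add_mem' := by
        rintro x y ⟨s, hs⟩ ⟨t, ht⟩
        exact ⟨s + t, by rw [cR_add, hs, ht, add_smul]⟩
      zero_mem' := ⟨0, by rw [zero_smul]; funext j; simp [cR]⟩
      smul_mem' := by
        rintro n x ⟨s, hs⟩
        exact ⟨n * s, by rw [cR_zsmul, hs, smul_smul]⟩ }
  have hS : ∀ x, x ∈ S ↔ ∃ s : ℝ, cR x = s • cR v := fun x => Iff.rfl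
  have hvS : v ∈ S := ⟨1, by rw [one_smul]⟩
  have hinj : Function.Injective ((LinearMap.proj i : (Fin d → ℤ) →ₗ[ℤ] ℤ).comp S.subtype) := by
    rw [← LinearMap.ker_eq_bot, LinearMap.ker_eq_bot']
    rintro ⟨x, s, hs⟩ hx
    have h1 : x i = 0 := hx
    have h2 := congrFun hs i
    simp only [cR, Pi.smul_apply, smul_eq_mul] at h2
    rw [h1, Int.cast_zero] at h2
    have h3 : s = 0 := by
      rcases mul_eq_zero.1 h2.symm with h | h
      · exact h
      · exact absurd (by exact_mod_cast h) hi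
    apply Subtype.ext
    rw [h3, zero_smul] at hs
    refine cR_inj ?_
    show cR x = cR 0
    rw [hs]
    funext j
    simp [cR]
  have hfr : Module.finrank ℤ S ≤ 1 := by
    have h1 := LinearMap.finrank_le_finrank_of_injective hinj
    rwa [Module.finrank_self] at h1
  obtain ⟨w, hw⟩ := finrank_le_one_iff.1 hfr
  refine ⟨w, ?_, ?_, ?_⟩
  · intro h0
    obtain ⟨c, hc⟩ := hw ⟨v, hvS⟩
    have h1 : w = 0 := Subtype.ext h0
    rw [h1, smul_zero] at hc
    exact hv (congrArg Subtype.val hc).symm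
  · obtain ⟨c, hc⟩ := hw ⟨v, hvS⟩
    exact ⟨c, (congrArg Subtype.val hc).symm⟩
  · intro x hx
    obtain ⟨c, hc⟩ := hw ⟨x, hx⟩
    exact ⟨c, (congrArg Subtype.val hc).symm⟩

/-- the quotient by the integer points of a line -/
theorem quot_line {d : ℕ} {v : Fin (d + 1) → ℤ} (hv : v ≠ 0) :
    ∃ (l : Fin (d + 1) → ℤ) (M : (Fin (d + 1) → ℤ) →+ (Fin d → ℤ))
      (σ : (Fin d → ℤ) →+ (Fin (d + 1) → ℤ)) (L : (Fin (d + 1) → ℝ) →ₗ[ℝ] (Fin d → ℝ)),
      (∃ n : ℤ, n ≠ 0 ∧ v = n • l) ∧ (∀ y, M (σ y) = y) ∧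
      (∀ x, M x = 0 → ∃ n : ℤ, x = n • l) ∧ (∀ n : ℤ, M (n • l) = 0) ∧
      (∀ x, L (cR x) = cR (M x)) ∧ Function.Surjective L ∧
      (∀ y, L y = 0 → ∃ s : ℝ, y = s • cR l) := by
  obtain ⟨l, hl0, ⟨n, hn⟩, hl⟩ := line_points hv
  have hn0 : n ≠ 0 := by
    rintro rfl
    rw [zero_smul] at hn
    exact hv hn
  obtain ⟨i, hi⟩ : ∃ i, v i ≠ 0 := by
    by_contra h
    push Not at h
    exact hv (funext h)
  let S : Submodule ℤ (Fin (d + 1) → ℤ) := Submodule.span ℤ {l}
  have hmem : ∀ x, x ∈ S ↔ ∃ n : ℤ, x = n • l := by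
    intro x
    rw [Submodule.mem_span_singleton]
    exact ⟨fun ⟨a, ha⟩ => ⟨a, ha.symm⟩, fun ⟨a, ha⟩ => ⟨a, ha.symm⟩⟩
  have htf : Module.IsTorsionFree ℤ ((Fin (d + 1) → ℤ) ⧸ S) := by
    rw [Module.isTorsionFree_int_iff_isAddTorsionFree]
    refine ⟨fun m hm => ?_⟩
    intro x y hxy
    induction x using Submodule.Quotient.induction_on with
    | H x =>
    induction y using Submodule.Quotient.induction_on with
    | H y =>
    have h1 : m • (x - y) ∈ S := by
      rw [← Submodule.Quotient.mk_eq_zero, ← Submodule.mkQ_apply, map_nsmul, map_sub, smul_sub,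
        Submodule.mkQ_apply, Submodule.mkQ_apply, sub_eq_zero]
      exact hxy
    rw [Submodule.Quotient.eq, hmem]
    refine hl _ ?_
    obtain ⟨a, ha⟩ := (hmem _).1 h1
    have h2 : (m : ℝ) • cR (x - y) = (a : ℝ) • cR l := by
      rw [← cR_zsmul, ← ha, ← natCast_zsmul, cR_zsmul, Int.cast_natCast]
    have h3 : cR v = (n : ℝ) • cR l := by rw [hn, cR_zsmul]
    have hm' : (m : ℝ) ≠ 0 := by exact_mod_cast hm
    have hn' : (n : ℝ) ≠ 0 := by exact_mod_cast hn0
    refine ⟨(m : ℝ)⁻¹ * a * (n : ℝ)⁻¹, ?_⟩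
    rw [h3, smul_smul, mul_assoc, mul_assoc, inv_mul_cancel₀ hn', mul_one, ← smul_smul, ← h2,
      smul_smul, inv_mul_cancel₀ hm', one_smul]
  have hfree : Module.Free ℤ ((Fin (d + 1) → ℤ) ⧸ S) := inferInstance
  have hS1 : Module.finrank ℤ S = 1 := by
    rw [← (LinearEquiv.toSpanNonzeroSingleton ℤ _ l hl0).finrank_eq, Module.finrank_self]
  have hQ : Module.finrank ℤ ((Fin (d + 1) → ℤ) ⧸ S) = d := by
    have h1 := Submodule.finrank_quotient_add_finrank S
    rw [hS1, Module.finrank_fin_fun] at h1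
    omega
  let b : Module.Basis (Fin d) ℤ ((Fin (d + 1) → ℤ) ⧸ S) := Module.finBasisOfFinrankEq ℤ _ hQ
  let Ml : (Fin (d + 1) → ℤ) →ₗ[ℤ] (Fin d → ℤ) := b.equivFun.toLinearMap.comp S.mkQ
  have hMs : Function.Surjective Ml := b.equivFun.surjective.comp S.mkQ_surjective
  obtain ⟨σ, hσ⟩ := Module.projective_lifting_property Ml LinearMap.id hMs
  have hker : ∀ x, Ml x = 0 ↔ x ∈ S := by
    intro x
    show b.equivFun (S.mkQ x) = 0 ↔ _
    rw [LinearEquiv.map_eq_zero_iff, Submodule.mkQ_apply, Submodule.Quotient.mk_eq_zero]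
  let L : (Fin (d + 1) → ℝ) →ₗ[ℝ] (Fin d → ℝ) :=
    Fintype.linearCombination ℝ fun j => cR (Ml (Pi.single j 1))
  have hL : ∀ x, L (cR x) = cR (Ml x) := by
    intro x
    have h1 : x = ∑ j, x j • (Pi.single j 1 : Fin (d + 1) → ℤ) := by
      funext k
      simp [Finset.sum_apply, Pi.single_apply]
    have h2 : Ml x = ∑ j, x j • Ml (Pi.single j 1) := by
      conv_lhs => rw [h1]
      rw [map_sum]
      exact Finset.sum_congr rfl fun j _ => map_smul _ _ _
    rw [h2]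
    show ∑ j, (cR x j) • cR (Ml (Pi.single j 1)) = _
    funext k
    simp [cR, Finset.sum_apply]
  have hLs : Function.Surjective L := by
    intro y
    refine ⟨∑ j, y j • cR (σ (Pi.single j 1)), ?_⟩
    rw [map_sum]
    have h1 : ∀ j, L (y j • cR (σ (Pi.single j 1))) = y j • cR (Pi.single j (1 : ℤ)) := by
      intro j
      rw [map_smul, hL]
      have h2 : Ml (σ (Pi.single j 1)) = Pi.single j 1 := LinearMap.congr_fun hσ _
      rw [h2]
    rw [Finset.sum_congr rfl fun j _ => h1 j]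
    funext k
    simp [cR, Finset.sum_apply, Pi.single_apply]
  refine ⟨l, Ml.toAddMonoidHom, σ.toAddMonoidHom, L, ⟨n, hn0, hn⟩, ?_, ?_, ?_, hL, hLs, ?_⟩
  · intro y
    exact LinearMap.congr_fun hσ y
  · intro x hx
    exact (hmem x).1 ((hker x).1 hx)
  · intro m
    exact (hker _).2 ((hmem _).2 ⟨m, rfl⟩)
  · intro y hy
    have h1 := L.finrank_range_add_finrank_ker
    rw [LinearMap.range_eq_top.2 hLs, finrank_top, Module.finrank_fin_fun,
      Module.finrank_fin_fun] at h1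
    have h2 : Module.finrank ℝ (LinearMap.ker L) = 1 := by omega
    have h3 : L (cR l) = 0 := by
      rw [hL, (hker l).2 ((hmem l).2 ⟨1, (one_smul ℤ l).symm⟩)]
      funext k
      simp [cR]
    have h4 : (⟨cR l, h3⟩ : LinearMap.ker L) ≠ 0 := by
      intro h5
      have h6 : cR l = 0 := congrArg Subtype.val h5
      refine hl0 (cR_inj (c' := 0) ?_)
      rw [h6]
      funext k
      simp [cR]
    obtain ⟨s, hs⟩ := (finrank_eq_one_iff_of_nonzero' _ h4).1 h2 ⟨y, hy⟩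
    exact ⟨s, (congrArg Subtype.val hs).symm⟩

end Pool.Agent.Run7.h127.SN
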